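import Pool.Agent.H24.ZL.Num
import Pool.Agent.H24.VP.Exi
import Pool.Agent.H24.VP.Pos

/-!
# [H24 ZL LowZ] THEOREM Z (MP_e49dc9_ag), (LB): the lower bound near a real nef class `p`, without nefness

`low_z`: for `R₀` there are `C`, `x₀` with `chi - C ≤ h0` for all `L = ∏ G_i ^ n_i`, `|n_i - x p_i| ≤ R₀`, `x ≥ x₀`.
-/

set_option autoImplicit false

namespace Pool.Agent.H24.ZL

open Pool.Agent.H54.RV Pool.Agent.H83.TU Pool.Agent.H83.TK Pool.Agent.H24.TK Pool.Agent.H41.TK Pool.Agent.H24.VP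

variable {k K : Type} [Field k] [Field K] [Algebra k K] {X : Mod k K}
  {T : Cart X → Cart X → Cart X → ℝ} {l : Cart X → ℝ} {c : ℝ} {H : Cart X} {k' L : Type} [Field k'] [Field L]
  [Algebra k' L] {S : Mod k' L} {ψ : Cart X →* Cart S} {r : ℕ} {G : Fin r → Cart X} {p : Fin r → ℝ}

theorem near1 (ht : Tri T) (n : Fin r → ℤ) (x : ℝ) (U V : Cart X) :
    T (∏ i, G i ^ n i) U V = x * t1 T G p U V + ∑ i, ((n i : ℝ) - x * p i) * T (G i) U V := by
  unfold t1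
  rw [zprod ht, Finset.mul_sum, ← Finset.sum_add_distrib]
  refine Finset.sum_congr rfl fun i _ => ?_
  ring

theorem near2 (ht : Tri T) (n : Fin r → ℤ) (x : ℝ) :
    T (∏ i, G i ^ n i) (∏ i, G i ^ n i) H = x ^ 2 * bf T H G p p +
      x * (2 * ∑ i, ((n i : ℝ) - x * p i) * t1 T G p (G i) H) +
      ∑ i, ((n i : ℝ) - x * p i) * ∑ j, ((n j : ℝ) - x * p j) * T (G i) (G j) H := by
  obtain ⟨w, hw⟩ : ∃ w : Fin r → ℝ, w = fun i => (n i : ℝ) - x * p i := ⟨_, rfl⟩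
  have hn : ∀ i, (n i : ℝ) = x * p i + w i := fun i => by
    rw [hw]
    ring
  have hw' : ∀ i, (n i : ℝ) - x * p i = w i := fun i => by rw [hw]
  simp only [hw']
  rw [← bf_int ht]
  have e1 : ∑ i, ∑ j, p i * w j * T (G i) (G j) H = ∑ i, w i * t1 T G p (G i) H := by
    rw [Finset.sum_comm]
    refine Finset.sum_congr rfl fun i _ => ?_
    unfold t1
    rw [Finset.mul_sum]
    refine Finset.sum_congr rfl fun j _ => ?_
    ring
  have e2 : ∑ i, ∑ j, w i * p j * T (G i) (G j) H = ∑ i, w i * t1 T G p (G i) H := by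
    refine Finset.sum_congr rfl fun i _ => ?_
    unfold t1
    rw [Finset.mul_sum]
    refine Finset.sum_congr rfl fun j _ => ?_
    rw [ht.s12 (G j)]
    ring
  have e3 : ∑ i, w i * ∑ j, w j * T (G i) (G j) H = ∑ i, ∑ j, w i * w j * T (G i) (G j) H := by
    refine Finset.sum_congr rfl fun i _ => ?_
    rw [Finset.mul_sum]
    refine Finset.sum_congr rfl fun j _ => ?_
    ring
  rw [e3, two_mul]
  nth_rewrite 1 [← e1]
  rw [← e2]
  unfold bf
  rw [mul_add]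
  simp only [Finset.mul_sum, ← Finset.sum_add_distrib]
  refine Finset.sum_congr rfl fun i _ => ?_
  refine Finset.sum_congr rfl fun j _ => ?_
  rw [hn, hn]
  ring

theorem near2_le (ht : Tri T) {R₀ : ℝ} (hR : 0 ≤ R₀) : ∃ C₁ C₂ : ℝ, ∀ (n : Fin r → ℤ) (x : ℝ), 0 ≤ x →
    (∀ i, |(n i : ℝ) - x * p i| ≤ R₀) →
      |T (∏ i, G i ^ n i) (∏ i, G i ^ n i) H - x ^ 2 * bf T H G p p| ≤ C₁ * x + C₂ := by
  refine ⟨2 * (R₀ * ∑ i, |t1 T G p (G i) H|), R₀ * ∑ i, (R₀ * ∑ j, |T (G i) (G j) H|), fun n x hx hn => ?_⟩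
  rw [near2 (p := p) ht n x]
  have h1 := sum_bd _ (fun i => t1 T G p (G i) H) hn
  have h2 : |∑ i, ((n i : ℝ) - x * p i) * ∑ j, ((n j : ℝ) - x * p j) * T (G i) (G j) H| ≤
      R₀ * ∑ i, (R₀ * ∑ j, |T (G i) (G j) H|) := by
    refine (sum_bd _ _ hn).trans ?_
    refine mul_le_mul_of_nonneg_left (Finset.sum_le_sum fun i _ => sum_bd _ _ hn) hR
  have e : x ^ 2 * bf T H G p p + x * (2 * ∑ i, ((n i : ℝ) - x * p i) * t1 T G p (G i) H) +
      ∑ i, ((n i : ℝ) - x * p i) * ∑ j, ((n j : ℝ) - x * p j) * T (G i) (G j) H - x ^ 2 * bf T H G p p =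
      x * (2 * ∑ i, ((n i : ℝ) - x * p i) * t1 T G p (G i) H) +
      ∑ i, ((n i : ℝ) - x * p i) * ∑ j, ((n j : ℝ) - x * p j) * T (G i) (G j) H := by ring
  rw [e]
  refine (abs_add_le _ _).trans (add_le_add ?_ h2)
  rw [abs_mul, abs_mul, abs_of_nonneg hx, abs_two]
  nlinarith

theorem con_z (hr : RR T l c) (hS : Sf H S ψ) (hi : ∀ A B C, ∃ z : ℤ, T A B C = z)
    (hlin : ∀ z : Fin r → ℤ, ∑ i, p i * z i = 0 → z = 0) (hβ : 0 < t1 T G p H H) (hpp : 0 < bf T H G p p)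
    {K₁ : ℝ} (hK₁ : 0 ≤ K₁) {R₀ : ℝ} (hR : 0 ≤ R₀) :
    ∃ x₀ : ℝ, ∀ (n : Fin r → ℤ) (x : ℝ), x₀ ≤ x → (∀ i, |(n i : ℝ) - x * p i| ≤ R₀) →
      Con T H (Qc T H G p K₁) (∏ i, G i ^ n i) := by
  classical
  have ht := hr.tri
  obtain ⟨C₁, C₂, hC⟩ := near2_le (T := T) (H := H) (G := G) (p := p) ht hR
  obtain ⟨x₁, hx₁⟩ := quad_ev hpp C₁ C₂
  obtain ⟨a, ha⟩ : ∃ a, a = bf T H G p p := ⟨_, rfl⟩
  obtain ⟨β, hβd⟩ : ∃ β, β = t1 T G p H H := ⟨_, rfl⟩
  have ha0 : 0 < a := by rw [ha]; exact hpp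
  have hβ0 : 0 < β := by rw [hβd]; exact hβ
  obtain ⟨τ, hτ⟩ : ∃ τ, τ = a / (4 * β ^ 2) := ⟨_, rfl⟩
  have hτ0 : 0 < τ := by rw [hτ]; positivity
  have hτ1 : 4 * τ * t1 T G p H H ^ 2 ≤ bf T H G p p := by
    rw [← ha, ← hβd, hτ]
    apply le_of_eq
    field_simp
  obtain ⟨K₀, hK₀⟩ : ∃ K₀, K₀ = r * R₀ * K₁ := ⟨_, rfl⟩
  have hK : 0 ≤ K₀ := by rw [hK₀]; positivity
  obtain ⟨δ, hδ, hfin⟩ := fin_pos hlin (K₁ * (K₀ / τ))
  obtain ⟨x₂, hx₂⟩ := lin_ev (show 0 < τ * β by positivity) K₀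
  obtain ⟨x₃, hx₃⟩ := lin_ev hδ (K₀ * (K₀ / τ))
  refine ⟨max 1 (max x₁ (max x₂ x₃)), fun n x hx hn => ?_⟩
  have hx0 : 1 ≤ x := (le_max_left _ _).trans hx
  have hx1 := hx₁ x ((le_max_left _ _).trans ((le_max_right _ _).trans hx))
  have hx2 := hx₂ x ((le_max_left _ _).trans ((le_max_right _ _).trans ((le_max_right _ _).trans hx)))
  have hx3 := hx₃ x ((le_max_right _ _).trans ((le_max_right _ _).trans ((le_max_right _ _).trans hx)))
  have hxp : 0 < x := by linarith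
  obtain ⟨W, hW⟩ : ∃ W, W = ∏ i, G i ^ n i := ⟨_, rfl⟩
  have hWW : 0 < T W W H := by
    have h1 := hC n x hxp.le hn
    rw [← hW, abs_le] at h1
    linarith [h1.1]
  rw [← hW]
  have key : ∀ E, Qc T H G p K₁ E → T W E H ≤ 0 → T W E H ≤ T E E H → False := by
    rintro E ⟨hB, hE0, hE1⟩ h1 h2
    have h3 := near1 (G := G) (p := p) ht n x E H
    rw [← hW] at h3
    have h4 : |∑ i, ((n i : ℝ) - x * p i) * T (G i) E H| ≤ K₀ * T E H H := by
      refine (sum_bd _ _ hn).trans ?_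
      have h5 : ∑ i, |T (G i) E H| ≤ ∑ _i : Fin r, K₁ * T E H H := Finset.sum_le_sum fun i _ => hE1 i
      rw [Finset.sum_const, Finset.card_univ, Fintype.card_fin, nsmul_eq_mul] at h5
      calc R₀ * ∑ i, |T (G i) E H| ≤ R₀ * (r * (K₁ * T E H H)) := mul_le_mul_of_nonneg_left h5 hR
        _ = K₀ * T E H H := by rw [hK₀]; ring
    rw [abs_le] at h4
    have hxe : x * t1 T G p E H ≤ K₀ * T E H H := by linarith [h4.1]
    have hEE : -(K₀ * T E H H) ≤ T E E H := by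
      have : 0 ≤ x * t1 T G p E H := mul_nonneg hxp.le hE0
      linarith [h4.1]
    have h5 := bnd hr hS hi hpp hτ0 hτ1 hβ hxp (by rw [← hβd]; exact hx2.le) hB hE0 hxe hEE
    have hB' : T E H H ≤ K₀ / τ := by
      rw [le_div_iff₀ hτ0]
      linarith
    choose z hz using fun i => hi (G i) E H
    have hz0 : z = 0 := by
      by_contra hne
      have h6 := hfin z (fun i => by
        rw [← hz]
        exact (hE1 i).trans (mul_le_mul_of_nonneg_left hB' hK₁)) hne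
      have h7 : ∑ i, p i * (z i : ℝ) = t1 T G p E H := by
        unfold t1
        refine Finset.sum_congr rfl fun i _ => ?_
        rw [hz]
      rw [h7, abs_of_nonneg hE0] at h6
      have h8 : δ * x ≤ K₀ * (K₀ / τ) := by
        calc δ * x ≤ t1 T G p E H * x := mul_le_mul_of_nonneg_right h6 hxp.le
          _ = x * t1 T G p E H := mul_comm _ _
          _ ≤ K₀ * T E H H := hxe
          _ ≤ K₀ * (K₀ / τ) := mul_le_mul_of_nonneg_left hB' hK
      linarith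
    have hT0 : ∀ i, T (G i) E H = 0 := fun i => by
      rw [hz, hz0]
      simp
    have hp0 : t1 T G p E H = 0 := by
      unfold t1
      simp only [hT0, mul_zero, Finset.sum_const_zero]
    have hW0 : T W E H = 0 := by
      rw [h3, hp0]
      simp only [hT0, mul_zero, Finset.sum_const_zero, add_zero]
    have h9 := bnd hr hS hi hpp (K₀ := 0) hτ0 hτ1 hβ hxp (by positivity) hB hE0 (by rw [hp0]; simp)
      (by linarith)
    have h10 := mul_pos hτ0 hB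
    linarith
  intro Z R hZ hR' hsum
  by_contra hcon
  push Not at hcon
  have h1 := hsum W
  have h2 := hsum Z
  have h3 := hsum R
  rw [ht.s12 Z W, ht.s12 R W] at h1
  rw [ht.s12 R Z] at h2
  have h4 := hdg_L ht hi (crv_num hr hS).1 (hdg hr hS) W Z hWW
  have h5 := hdg_L ht hi (crv_num hr hS).1 (hdg hr hS) W R hWW
  have h6 : T W W H * T W Z H ≤ T W Z H ^ 2 :=
    (mul_le_mul_of_nonneg_left (by linarith) hWW.le).trans h4
  have h7 : T W W H * T W R H ≤ T W R H ^ 2 :=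
    (mul_le_mul_of_nonneg_left (by linarith) hWW.le).trans h5
  rcases le_or_gt (T W Z H) 0 with h8 | h8
  · exact key Z hZ h8 (by linarith)
  · rcases le_or_gt (T W R H) 0 with h9 | h9
    · exact key R hR' h9 (by linarith)
    · have h10 : T W W H ≤ T W Z H := by
        rw [sq] at h6
        exact le_of_mul_le_mul_right h6 h8
      have h11 : T W W H ≤ T W R H := by
        rw [sq] at h7
        exact le_of_mul_le_mul_right h7 h9
      linarith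

theorem low_z (hX : IsVar X) (hr : RR T l c) (hS : Sf H S ψ) (hi : ∀ A B C, ∃ z : ℤ, T A B C = z)
    (hlin : ∀ z : Fin r → ℤ, ∑ i, p i * z i = 0 → z = 0) (hnef : ∀ E, Cls S ψ E → 0 ≤ t1 T G p E H)
    (hβ : 0 < t1 T G p H H) (hpp : 0 < bf T H G p p) (R₀ : ℝ) :
    ∃ C x₀ : ℝ, ∀ (n : Fin r → ℤ) (x : ℝ), x₀ ≤ x → (∀ i, |(n i : ℝ) - x * p i| ≤ R₀) →
      chi T l c (∏ i, G i ^ n i) - C ≤ h0 (∏ i, G i ^ n i) 1 := by
  classical
  have ht := hr.tri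
  obtain ⟨R, hRd⟩ : ∃ R, R = max R₀ 0 := ⟨_, rfl⟩
  have hR : 0 ≤ R := by rw [hRd]; exact le_max_right _ _
  obtain ⟨K₁, hK₁, hcc⟩ := cc_qc hX hr hS hβ hnef
  obtain ⟨x₀, hx₀⟩ := con_z hr hS hi hlin hβ hpp hK₁ hR
  obtain ⟨C, hC⟩ := low_uni hr hS
  obtain ⟨C₁, C₂, hC2⟩ := near2_le (T := T) (H := H) (G := G) (p := p) ht hR
  obtain ⟨a, ha⟩ : ∃ a, a = bf T H G p p := ⟨_, rfl⟩
  obtain ⟨β, hβd⟩ : ∃ β, β = t1 T G p H H := ⟨_, rfl⟩
  obtain ⟨κ, hκd⟩ : ∃ κ, κ = T H H H := ⟨_, rfl⟩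
  obtain ⟨C₃, hC₃⟩ : ∃ C₃, C₃ = R * ∑ i, |T (G i) H H| := ⟨_, rfl⟩
  obtain ⟨x₁, hx₁⟩ := quad_ev (show 0 < bf T H G p p / 2 by linarith) (C₁ / 2 + 3 / 2 * β)
    (C₂ / 2 + 3 / 2 * C₃ - (7 / 6 * κ + l H))
  obtain ⟨x₂, hx₂⟩ := lin_ev hβ (C₃ + 2 * κ)
  refine ⟨C, max 1 (max x₀ (max x₁ x₂)), fun n x hx hn => ?_⟩
  have hx0 : 1 ≤ x := (le_max_left _ _).trans hx
  have hx1 : x₀ ≤ x := (le_max_left _ _).trans ((le_max_right _ _).trans hx)
  have hx2 := hx₁ x ((le_max_left _ _).trans ((le_max_right _ _).trans ((le_max_right _ _).trans hx)))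
  have hx3 := hx₂ x ((le_max_right _ _).trans ((le_max_right _ _).trans ((le_max_right _ _).trans hx)))
  have hxp : 0 < x := by linarith
  have hn' : ∀ i, |(n i : ℝ) - x * p i| ≤ R := fun i => (hn i).trans (by rw [hRd]; exact le_max_left _ _)
  have hcon := hx₀ n x hx1 hn'
  have h2 := hC2 n x hxp.le hn'
  have h3 := near1 (G := G) (p := p) ht n x H H
  have h4 := sum_bd _ (fun i => T (G i) H H) hn'
  rw [← hC₃] at h4
  rw [← ha] at h2 hx2
  rw [← hβd] at h3 hx3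
  obtain ⟨W, hW⟩ : ∃ W, W = ∏ i, G i ^ n i := ⟨_, rfl⟩
  rw [← hW] at h2 h3 hcon ⊢
  rw [abs_le] at h2 h4
  refine hC _ hcc W (W * H⁻¹) (by rw [mul_comm, inv_mul_cancel_right]) hcon ?_
  have e1 : T (W * H⁻¹) H H = T W H H - κ := by
    rw [ht.add, ht.inv, ← hκd]
    ring
  have hlt : T H H H < T (W * H⁻¹) H H := by
    rw [e1, ← hκd]
    linarith [h4.1]
  have e2 : chS T l H (W * H⁻¹) = T W W H / 2 - 3 / 2 * T W H H + (7 / 6 * κ + l H) := by
    unfold chS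
    rw [e1]
    simp only [ht.add, ht.add2, ht.inv, ht.inv2]
    rw [ht.s12 H W H, ← hκd]
    ring
  have h5 := t4 hr hS _ hlt
  rw [e2] at h5
  have h6 : (0 : ℝ) < h0 (ψ (W * H⁻¹)) 1 := by
    refine lt_of_lt_of_le ?_ h5
    have h7 := h2.1
    have h8 := h4.2
    nlinarith
  exact_mod_cast h6

/-- **(LB)** -/
theorem low_z' [CharZero k] [T0Space X.P] (h : Hyp X) (hr : RR T l c) {A : Cart X} (hA : Ample A)
    (hlin : ∀ z : Fin r → ℤ, ∑ i, p i * z i = 0 → z = 0)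
    (hnef : ∀ E B : Cart X, Ample B → (∀ W, Ample W → 0 < T W E B) → 0 ≤ t1 T G p E B)
    (hβ : 0 < t1 T G p A A) (hpp : 0 < bf T A G p p) (R₀ : ℝ) :
    ∃ C x₀ : ℝ, ∀ (n : Fin r → ℤ) (x : ℝ), x₀ ≤ x → (∀ i, |(n i : ℝ) - x * p i| ≤ R₀) →
      chi T l c (∏ i, G i ^ n i) - C ≤ h0 (∏ i, G i ^ n i) 1 := by
  obtain ⟨m, k', L, i1, i2, i3, S, ψ, hm, hS⟩ := exists_sf h hA
  have hm0 : (0 : ℝ) < m := by exact_mod_cast hm
  refine low_z h.var hr hS (t_int hr h.amp) hlin (fun E hE => hnef E _ hS.hH fun W hW => cv_pos hr hS hE hW) ?_ ?_ R₀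
  · have e : t1 T G p (A ^ m) (A ^ m) = m * (m * t1 T G p A A) := by
      unfold t1
      rw [Finset.mul_sum, Finset.mul_sum]
      refine Finset.sum_congr rfl fun i _ => ?_
      rw [hr.tri.pow2, hr.tri.pow3]
      ring
    rw [e]
    positivity
  · have e : bf T (A ^ m) G p p = m * bf T A G p p := by
      unfold bf
      rw [Finset.mul_sum]
      refine Finset.sum_congr rfl fun i _ => ?_
      rw [Finset.mul_sum]
      refine Finset.sum_congr rfl fun j _ => ?_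
      rw [hr.tri.pow3]
      ring
    rw [e]
    positivity

end Pool.Agent.H24.ZL
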