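import Pool.Agent.H24.VP.Dec
import Pool.Agent.H24.VP.Hdg
import Pool.Agent.H24.VP.HdA

/-!
# [H24 ZL Ram] THEOREM Z (MP_e49dc9_ag), (LB): numerical connectedness without nefness (compare H24/VP/Ram, Low)

`Q`: a property of (effective) classes on the generic surface, multiplicative, true for `H` and for the classes of the curves.
`low_uni`: one constant for all `M = H M'` with `0 < h0 (ψ M') 1` such that `M = Z + R`, `Q Z`, `Q R` imply `0 < T(Z,R,H)`.
-/

set_option autoImplicit false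

namespace Pool.Agent.H24.ZL

open Pool.Agent.H54.RV Pool.Agent.H83.TU Pool.Agent.H83.TK Pool.Agent.H24.TK Pool.Agent.H41.TK Pool.Agent.H24.VP

variable {k K : Type} [Field k] [Field K] [Algebra k K] {X : Mod k K}
  {T : Cart X → Cart X → Cart X → ℝ} {l : Cart X → ℝ} {c : ℝ} {H : Cart X} {k' L : Type} [Field k'] [Field L]
  [Algebra k' L] {S : Mod k' L} {ψ : Cart X →* Cart S}

/-- `M = Z + R` on the generic surface with `Q Z` and `Q R` implies `Z . R > 0` -/
def Con (T : Cart X → Cart X → Cart X → ℝ) (H : Cart X) (Q : Cart X → Prop) (M : Cart X) : Prop :=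
  ∀ Z R, Q Z → Q R → (∀ U, T M U H = T Z U H + T R U H) → 0 < T Z R H

/-- `Q` holds for `H` and for the curves, and is multiplicative -/
structure Cc (S : Mod k' L) (ψ : Cart X →* Cart S) (H : Cart X) (Q : Cart X → Prop) : Prop where
  self : Q H
  mul : ∀ A B, Q A → Q B → Q (A * B)
  cls : ∀ E, Cls S ψ E → Q E

theorem ram_con (hr : RR T l c) (hS : Sf H S ψ) {Q : Cart X → Prop} (hQ : Cc S ψ H Q) {M M' : Cart X}
    (hMM : M = H * M') (hpos : Con T H Q M) {r : ℕ} {E : Fin r → Cart X} (hE : ∀ i, Cls S ψ (E i))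
    (hL : LEq (ψ M') (ψ (∏ i, E i))) (s : Finset (Fin r)) (hs : s ≠ Finset.univ) :
    ∃ i ∉ s, 0 < T (H * ∏ j ∈ s, E j) (E i) H := by
  classical
  have ht := hr.tri
  by_contra hcon
  push Not at hcon
  have hnum := le_num hr hS hL
  obtain ⟨Z, hZ⟩ : ∃ Z : Cart X, Z = H * ∏ j ∈ s, E j := ⟨_, rfl⟩
  obtain ⟨R, hR⟩ : ∃ R : Cart X, R = ∏ j ∈ sᶜ, E j := ⟨_, rfl⟩
  rw [← hZ] at hcon
  have hZR : Z * R = H * ∏ j, E j := by
    rw [hZ, hR, mul_assoc, Finset.prod_mul_prod_compl]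
  have h1 : ∀ U, T M U H = T Z U H + T R U H := by
    intro U
    rw [← ht.add, hZR, ht.add, ← hnum, ← ht.add, ← hMM]
  have hQZ : Q Z := by
    rw [hZ]
    rcases s.eq_empty_or_nonempty with h2 | h2
    · rw [h2, Finset.prod_empty, mul_one]
      exact hQ.self
    · exact hQ.mul _ _ hQ.self (Finset.prod_induction_nonempty _ Q hQ.mul h2 fun j _ => hQ.cls _ (hE j))
  have hne : (sᶜ).Nonempty := by
    rw [Finset.nonempty_iff_ne_empty]
    intro h2
    rw [Finset.compl_eq_empty_iff] at h2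
    exact hs h2
  have hQR : Q R := by
    rw [hR]
    exact Finset.prod_induction_nonempty _ Q hQ.mul hne fun j _ => hQ.cls _ (hE j)
  have h2 := hpos Z R hQZ hQR h1
  rw [hR, ht.prod2] at h2
  exact absurd h2 (not_lt.2 (Finset.sum_nonpos fun j hj => hcon j (Finset.mem_compl.1 hj)))

theorem ram (hr : RR T l c) (hS : Sf H S ψ) {Q : Cart X → Prop} (hQ : Cc S ψ H Q) {M M' : Cart X}
    (hMM : M = H * M') (hpos : Con T H Q M) (hM' : 0 < h0 (ψ M') 1) (i : ℕ) (hi1 : 1 ≤ i) :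
    (h0 (ψ (H ^ i * M)) 1 : ℝ) - chS T l H (H ^ i * M) ≤ h0 (ψ (H ^ (i + 1))) 1 - chS T l H (H ^ (i + 1)) := by
  classical
  have ht := hr.tri
  obtain ⟨r, E, hE, hL⟩ := dec hr hS M' hM'
  have step : ∀ (n : ℕ) (s : Finset (Fin r)), sᶜ.card = n →
      (h0 (ψ (H ^ i * (H * ∏ j, E j))) 1 : ℝ) - chS T l H (H ^ i * (H * ∏ j, E j)) ≤
        h0 (ψ (H ^ i * (H * ∏ j ∈ s, E j))) 1 - chS T l H (H ^ i * (H * ∏ j ∈ s, E j)) := by
    intro n
    induction n with
    | zero =>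
      intro s hs
      rw [Finset.card_eq_zero, Finset.compl_eq_empty_iff] at hs
      rw [hs]
    | succ n ih =>
      intro s hs
      have hs1 : s ≠ Finset.univ := by
        rintro rfl
        rw [Finset.compl_univ, Finset.card_empty] at hs
        omega
      obtain ⟨a, ha, h1⟩ := ram_con hr hS hQ hMM hpos hE hL s hs1
      have h2 := ih (insert a s) (by
        rw [Finset.compl_insert, Finset.card_erase_of_mem (Finset.mem_compl.2 ha), hs]
        rfl)
      rw [Finset.prod_insert ha] at h2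
      refine h2.trans ?_
      have e : H ^ i * (H * (E a * ∏ j ∈ s, E j)) = H ^ i * (H * ∏ j ∈ s, E j) * E a := by
        rw [mul_comm (E a), ← mul_assoc H, ← mul_assoc (H ^ i)]
      rw [e]
      have h3 : 0 < T (E a) H H := by
        have h4 := cv_pos hr hS (hE a) hS.hH
        rwa [ht.s12] at h4
      have h5 : T (H ^ i * (H * ∏ j ∈ s, E j) * E a) (E a) H =
          i * T (E a) H H + T (H * ∏ j ∈ s, E j) (E a) H + T (E a) (E a) H := by
        rw [ht.add, ht.add, ht.pow, ht.s12 H (E a) H]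
      have h6 : T (E a) H H ≤ i * T (E a) H H := by
        have h7 : (1 : ℝ) ≤ i := by exact_mod_cast hi1
        nlinarith
      have h8 := cv_shp hr hS (hE a) (H ^ i * (H * ∏ j ∈ s, E j) * E a) (by
        rw [h5]
        linarith)
      rw [mul_inv_cancel_right] at h8
      linarith
  have h1 := step _ ∅ rfl
  rw [Finset.prod_empty, mul_one, ← pow_succ] at h1
  have hLE : LEq (ψ (H ^ i * M)) (ψ (H ^ i * (H * ∏ j, E j))) := by
    rw [hMM, ← mul_assoc, ← mul_assoc, map_mul ψ (H ^ i * H), map_mul ψ (H ^ i * H)]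
    exact (LEq.refl _).mul hL
  have h2 := hLE.h0 1
  have h3 := le_num hr hS hLE
  have h4 : chS T l H (H ^ i * M) = chS T l H (H ^ i * (H * ∏ j, E j)) := by
    unfold chS
    rw [h3 (H ^ i * M), h3 H, ht.s12 _ (H ^ i * M) H, h3]
  rw [h2, h4]
  exact h1

theorem low_uni (hr : RR T l c) (hS : Sf H S ψ) : ∃ C : ℝ, ∀ Q : Cart X → Prop, Cc S ψ H Q →
    ∀ M M' : Cart X, M = H * M' → Con T H Q M → 0 < h0 (ψ M') 1 → chi T l c M - C ≤ h0 M 1 := by
  classical
  obtain ⟨i₀, hi₀⟩ := sf_ev hr hS 1 H hS.hH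
  obtain ⟨g, hg⟩ : ∃ g : ℕ → ℝ, g = fun i => (h0 (ψ (H ^ (i + 1))) 1 : ℝ) - chS T l H (H ^ (i + 1)) :=
    ⟨_, rfl⟩
  have hg0 : ∀ i, i₀ ≤ i → g i = 0 := by
    intro i hi
    have h1 := hi₀ (i + 1) (by omega)
    rw [one_mul] at h1
    rw [hg]
    simp only
    rw [h1, sub_self]
  refine ⟨∑ i ∈ Finset.range i₀, |g (i + 1)|, fun Q hQ M M' h2 h3 h5 => ?_⟩
  have hram : ∀ i, 1 ≤ i → (h0 (ψ (H ^ i * M)) 1 : ℝ) - chS T l H (H ^ i * M) ≤ g i := by
    intro i hi1
    rw [hg]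
    exact ram hr hS hQ h2 h3 h5 i hi1
  -- the descent
  have hstep : ∀ j : ℕ, (h0 (M * H ^ j) 1 : ℝ) - chi T l c (M * H ^ j) ≤
      (h0 M 1 : ℝ) - chi T l c M + ∑ i ∈ Finset.range j, |g (i + 1)| := by
    intro j
    induction j with
    | zero => rw [pow_zero, mul_one, Finset.range_zero, Finset.sum_empty, add_zero]
    | succ j ih =>
      rw [Finset.sum_range_succ]
      have h1 : M * H ^ (j + 1) * H⁻¹ = M * H ^ j := by
        rw [pow_succ, ← mul_assoc, mul_inv_cancel_right]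
      have h2 := hS.le (M * H ^ (j + 1))
      rw [h1] at h2
      have h3 := hr.chi_sub H (M * H ^ (j + 1))
      rw [h1] at h3
      have h4 := hram (j + 1) (by omega)
      rw [mul_comm (H ^ (j + 1)) M] at h4
      have h5 := le_abs_self (g (j + 1))
      have h6 : (h0 (M * H ^ (j + 1)) 1 : ℝ) ≤ h0 (M * H ^ j) 1 + h0 (ψ (M * H ^ (j + 1))) 1 := by
        exact_mod_cast h2
      linarith
  obtain ⟨j₀, hj₀⟩ := hr.ev M H hS.hH
  obtain ⟨j, hj⟩ : ∃ j, j = max i₀ j₀ := ⟨_, rfl⟩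
  have h1 := hj₀ j (by rw [hj]; exact le_max_right _ _)
  have h2 := hstep j
  rw [h1, sub_self] at h2
  have h3 : ∑ i ∈ Finset.range j, |g (i + 1)| = ∑ i ∈ Finset.range i₀, |g (i + 1)| := by
    symm
    refine Finset.sum_subset (Finset.range_subset_range.2 (by rw [hj]; exact le_max_left _ _))
      fun i _ hi => ?_
    rw [Finset.mem_range, not_lt] at hi
    rw [hg0 (i + 1) (by omega), abs_zero]
  rw [h3] at h2
  linarith

end Pool.Agent.H24.ZL
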