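import Pool.Agent.H24.ZL.HdR
import Pool.Agent.H24.ZL.Ram
import Pool.Agent.H24.VP.Nef

/-!
# [H24 ZL Num] THEOREM Z (MP_e49dc9_ag), (LB): the effective classes near `p` are numerically connected

`G : Fin r → Cart X`, `p : Fin r → ℝ` linearly independent over `ℚ`: the real class `p = ∑ p_i G_i`.
`t1 T G p U V = T(p,U,V)`, `bf T H G p p = T(p,p,H)`.
`bnd`: the degree of an effective class `E` with `T(p,E,H)` and `- T(E,E,H)` small is bounded.
`con_z`: `Con T H Q L` for all `L = ∏ G_i ^ n_i` near `x p`, `x` large.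
-/

set_option autoImplicit false

namespace Pool.Agent.H24.ZL

open Pool.Agent.H54.RV Pool.Agent.H83.TU Pool.Agent.H83.TK Pool.Agent.H24.TK Pool.Agent.H41.TK Pool.Agent.H24.VP

variable {k K : Type} [Field k] [Field K] [Algebra k K] {X : Mod k K}
  {T : Cart X → Cart X → Cart X → ℝ} {l : Cart X → ℝ} {c : ℝ} {H : Cart X} {k' L : Type} [Field k'] [Field L]
  [Algebra k' L] {S : Mod k' L} {ψ : Cart X →* Cart S} {r : ℕ} {G : Fin r → Cart X} {p : Fin r → ℝ}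

/-- `T(p,U,V)` -/
noncomputable def t1 (T : Cart X → Cart X → Cart X → ℝ) (G : Fin r → Cart X) (p : Fin r → ℝ) (U V : Cart X) : ℝ :=
  ∑ i, p i * T (G i) U V

theorem t1_mul (ht : Tri T) (A B V : Cart X) : t1 T G p (A * B) V = t1 T G p A V + t1 T G p B V := by
  unfold t1
  rw [← Finset.sum_add_distrib]
  refine Finset.sum_congr rfl fun i _ => ?_
  rw [ht.add2]
  ring

/-- the properties of the effective classes on the generic surface which are used -/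
def Qc (T : Cart X → Cart X → Cart X → ℝ) (H : Cart X) (G : Fin r → Cart X) (p : Fin r → ℝ) (K₁ : ℝ) (E : Cart X) :
    Prop :=
  0 < T E H H ∧ 0 ≤ t1 T G p E H ∧ ∀ i, |T (G i) E H| ≤ K₁ * T E H H

theorem cc_qc (hX : IsVar X) (hr : RR T l c) (hS : Sf H S ψ) (hβ : 0 < t1 T G p H H)
    (hnef : ∀ E, Cls S ψ E → 0 ≤ t1 T G p E H) : ∃ K₁ : ℝ, 0 ≤ K₁ ∧ Cc S ψ H (Qc T H G p K₁) := by
  classical
  have ht := hr.tri
  have h1 : ∀ i, ∃ n : ℕ, Ample (H ^ n * G i) ∧ Ample (H ^ n * (G i)⁻¹) := by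
    intro i
    obtain ⟨n₁, h1⟩ := exists_amp hX hS.hH (G i)
    obtain ⟨n₂, h2⟩ := exists_amp hX hS.hH (G i)⁻¹
    exact ⟨max n₁ n₂, h1 _ (le_max_left _ _), h2 _ (le_max_right _ _)⟩
  choose N hN hN' using h1
  have hpos : ∀ B, Ample B → 0 < T B H H := by
    intro B hB
    obtain ⟨-, m₂, k₂, K₂, i1, i2, i3, i4, C, φ, hm₂, hC, hφ, hle, hdg, -⟩ := crv_num hr hS
    have h5 := hdg B
    have h6 : 0 < Pool.Agent.H41.TK.dg (φ B) := Pool.Agent.H41.TK.dg_ample hC _ (hφ B hB)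
    have h7 : (0 : ℝ) < Pool.Agent.H41.TK.dg (φ B) := by exact_mod_cast h6
    rw [h5] at h7
    have hm₂' : (0 : ℝ) < m₂ := by exact_mod_cast hm₂
    exact (pos_iff_pos_of_mul_pos h7).1 hm₂'
  have hle : ∀ i, (N i : ℝ) ≤ ∑ j, (N j : ℝ) := fun i =>
    Finset.single_le_sum (f := fun j => (N j : ℝ)) (fun j _ => Nat.cast_nonneg _) (Finset.mem_univ i)
  have key : ∀ E, 0 < T E H H → (∀ B, Ample B → 0 < T B E H) →
      ∀ i, |T (G i) E H| ≤ (∑ j, (N j : ℝ)) * T E H H := by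
    intro E hE h2 i
    have h3 := h2 _ (hN i)
    have h4 := h2 _ (hN' i)
    rw [ht.add, ht.pow, ht.s12 H E H] at h3 h4
    rw [ht.inv] at h4
    have h5 : (N i : ℝ) * T E H H ≤ (∑ j, (N j : ℝ)) * T E H H := mul_le_mul_of_nonneg_right (hle i) hE.le
    rw [abs_le]
    constructor <;> linarith
  refine ⟨∑ j, (N j : ℝ), Finset.sum_nonneg fun j _ => Nat.cast_nonneg _, ?_, ?_, ?_⟩
  · exact ⟨hpos H hS.hH, hβ.le, key H (hpos H hS.hH) hpos⟩
  · rintro A B ⟨a1, a2, a3⟩ ⟨b1, b2, b3⟩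
    refine ⟨?_, ?_, fun i => ?_⟩
    · rw [ht.add]
      linarith
    · rw [t1_mul ht]
      linarith
    · rw [ht.add2, ht.add, mul_add]
      exact (abs_add_le _ _).trans (add_le_add (a3 i) (b3 i))
  · intro E hE
    have h2 : 0 < T E H H := by
      have h3 := cv_pos hr hS hE hS.hH
      rwa [ht.s12] at h3
    exact ⟨h2, hnef E hE, key E h2 fun B hB => cv_pos hr hS hE hB⟩

/-- the index theorem for `p` and `E + t H` -/
theorem hdg_pE (hr : RR T l c) (hS : Sf H S ψ) (hi : ∀ A B C, ∃ z : ℤ, T A B C = z)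
    (hpp : 0 < bf T H G p p) (E : Cart X) (t : ℝ) :
    bf T H G p p * (T E E H + 2 * t * T E H H + t ^ 2 * T H H H) ≤ (t1 T G p E H + t * t1 T G p H H) ^ 2 := by
  have ht := hr.tri
  have e1 : bf T H (Sum.elim G ![E, H]) (Sum.elim p ![0, 0]) (Sum.elim p ![0, 0]) = bf T H G p p := by
    unfold bf
    simp [Fintype.sum_sum_type]
  have e2 : bf T H (Sum.elim G ![E, H]) (Sum.elim 0 ![1, t]) (Sum.elim 0 ![1, t]) =
      T E E H + 2 * t * T E H H + t ^ 2 * T H H H := by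
    unfold bf
    simp [Fintype.sum_sum_type]
    rw [ht.s12 H E H]
    ring
  have e3 : bf T H (Sum.elim G ![E, H]) (Sum.elim p ![0, 0]) (Sum.elim 0 ![1, t]) =
      t1 T G p E H + t * t1 T G p H H := by
    unfold bf t1
    simp [Fintype.sum_sum_type]
    rw [Finset.mul_sum, ← Finset.sum_add_distrib]
    refine Finset.sum_congr rfl fun i _ => ?_
    ring
  have h1 := hdg_real hr hS hi (Sum.elim G ![E, H]) (Sum.elim p ![0, 0]) (Sum.elim 0 ![1, t]) (by rw [e1]; exact hpp)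
  rw [e1, e2, e3] at h1
  exact h1

/-- the degree of `E` is bounded -/
theorem bnd (hr : RR T l c) (hS : Sf H S ψ) (hi : ∀ A B C, ∃ z : ℤ, T A B C = z)
    (hpp : 0 < bf T H G p p) {E : Cart X} {K₀ τ x : ℝ} (hτ : 0 < τ)
    (h1 : 4 * τ * t1 T G p H H ^ 2 ≤ bf T H G p p) (hβ : 0 < t1 T G p H H) (hx : 0 < x)
    (h2 : K₀ ≤ τ * t1 T G p H H * x) (hB : 0 < T E H H) (hE0 : 0 ≤ t1 T G p E H)
    (hE1 : x * t1 T G p E H ≤ K₀ * T E H H) (hE2 : -(K₀ * T E H H) ≤ T E E H) : τ * T E H H ≤ K₀ := by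
  obtain ⟨a, ha⟩ : ∃ a, a = bf T H G p p := ⟨_, rfl⟩
  obtain ⟨β, hβd⟩ : ∃ β, β = t1 T G p H H := ⟨_, rfl⟩
  obtain ⟨B, hBd⟩ : ∃ B, B = T E H H := ⟨_, rfl⟩
  obtain ⟨e, he⟩ : ∃ e, e = t1 T G p E H := ⟨_, rfl⟩
  have h3 := hdg_pE hr hS hi hpp E (τ * B)
  have hκ := (crv_num hr hS).1
  rw [← ha, ← hβd, ← hBd, ← he] at h3
  rw [← ha] at hpp h1
  rw [← hβd] at h1 h2 hβ
  rw [← hBd] at hB hE1 hE2 ⊢
  rw [← he] at hE0 hE1
  have h4 : e ≤ τ * β * B := by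
    have h5 : x * e ≤ x * (τ * β * B) := by
      calc x * e ≤ K₀ * B := hE1
        _ ≤ (τ * β * x) * B := mul_le_mul_of_nonneg_right h2 hB.le
        _ = x * (τ * β * B) := by ring
    exact le_of_mul_le_mul_left h5 hx
  have h5 : (e + τ * B * β) ^ 2 ≤ (2 * (τ * β * B)) ^ 2 := by
    refine pow_le_pow_left₀ (by positivity) ?_ 2
    linarith
  have h6 : (2 * (τ * β * B)) ^ 2 ≤ a * (τ * B ^ 2) := by
    have h7 : (2 * (τ * β * B)) ^ 2 = (4 * τ * β ^ 2) * (τ * B ^ 2) := by ring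
    rw [h7]
    exact mul_le_mul_of_nonneg_right h1 (by positivity)
  have h7 : a * (T E E H + 2 * (τ * B) * B + (τ * B) ^ 2 * T H H H) ≤ a * (τ * B ^ 2) := h3.trans (h5.trans h6)
  have h8 := le_of_mul_le_mul_left h7 hpp
  have h9 : 0 ≤ (τ * B) ^ 2 * T H H H := by positivity
  have h10 : B * (τ * B) ≤ B * K₀ := by nlinarith
  exact le_of_mul_le_mul_left h10 hB

theorem fin_pos (hlin : ∀ z : Fin r → ℤ, ∑ i, p i * z i = 0 → z = 0) (M : ℝ) :
    ∃ δ : ℝ, 0 < δ ∧ ∀ z : Fin r → ℤ, (∀ i, |(z i : ℝ)| ≤ M) → z ≠ 0 → δ ≤ |∑ i, p i * z i| := by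
  classical
  obtain ⟨N, hN⟩ := exists_nat_ge M
  obtain ⟨A, hA⟩ : ∃ A : Set (Fin r → ℤ), A = {z | (∀ i, |(z i : ℝ)| ≤ M) ∧ z ≠ 0} := ⟨_, rfl⟩
  have hfin : A.Finite := by
    refine (Set.finite_Icc (fun _ => -(N : ℤ) : Fin r → ℤ) (fun _ => (N : ℤ))).subset ?_
    rw [hA]
    rintro z ⟨h1, -⟩
    rw [Set.mem_Icc]
    constructor
    · intro i
      have h2 := (abs_le.1 ((h1 i).trans hN)).1
      have h3 : (-(N : ℤ) : ℝ) ≤ z i := by
        push_cast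
        exact h2
      exact_mod_cast h3
    · intro i
      have h2 := (abs_le.1 ((h1 i).trans hN)).2
      exact_mod_cast h2
  rcases A.eq_empty_or_nonempty with h1 | h1
  · refine ⟨1, one_pos, fun z h2 h3 => ?_⟩
    have h4 : z ∈ A := by
      rw [hA]
      exact ⟨h2, h3⟩
    rw [h1] at h4
    exact h4.elim
  · obtain ⟨a, ha, h2⟩ := Set.exists_min_image A (fun z : Fin r → ℤ => |∑ i, p i * z i|) hfin h1
    have ha' := ha
    rw [hA] at ha'
    refine ⟨|∑ i, p i * a i|, abs_pos.2 fun h3 => ha'.2 (hlin a h3), fun z h3 h4 => h2 z ?_⟩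
    rw [hA]
    exact ⟨h3, h4⟩

/-- `a x ^ 2 - b x` is large -/
theorem quad_ev {a : ℝ} (ha : 0 < a) (b d : ℝ) : ∃ x₁ : ℝ, ∀ x ≥ x₁, d < a * x ^ 2 - b * x := by
  refine ⟨max 1 ((|b| + |d| + 1) / a), fun x hx => ?_⟩
  have h1 : 1 ≤ x := (le_max_left _ _).trans hx
  have h2 : (|b| + |d| + 1) / a ≤ x := (le_max_right _ _).trans hx
  rw [div_le_iff₀ ha] at h2
  have h3 := le_abs_self b
  have h4 := le_abs_self d
  have h5 : 1 * (|d| + 1) ≤ x * (|d| + 1) := mul_le_mul_of_nonneg_right h1 (by positivity)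
  have h6 : x * (|d| + 1) ≤ x * (a * x - b) := mul_le_mul_of_nonneg_left (by nlinarith) (by linarith)
  nlinarith

theorem lin_ev {a : ℝ} (ha : 0 < a) (d : ℝ) : ∃ x₁ : ℝ, ∀ x ≥ x₁, d < a * x := by
  refine ⟨d / a + 1, fun x hx => ?_⟩
  have h1 : d / a < x := by linarith
  rw [div_lt_iff₀ ha] at h1
  linarith

theorem sum_bd {m : ℕ} (w f : Fin m → ℝ) {R₀ : ℝ} (hw : ∀ i, |w i| ≤ R₀) : |∑ i, w i * f i| ≤ R₀ * ∑ i, |f i| := by
  refine (Finset.abs_sum_le_sum_abs _ _).trans ?_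
  rw [Finset.mul_sum]
  refine Finset.sum_le_sum fun i _ => ?_
  rw [abs_mul]
  exact mul_le_mul_of_nonneg_right (hw i) (abs_nonneg _)

end Pool.Agent.H24.ZL
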