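import Pool.Agent.H24.ZL.Tr

/-!
# [H24 ZL Eng] THEOREM Z (MP_e49dc9_ag): the engine, assembly

`engine`: `SurfMov X`, `Fld1 X`, `Chain k K`, `EndF` imply `Engine`.
-/

set_option autoImplicit false

open scoped TensorProduct

namespace Pool.Agent.H24.ZL

open Pool.Agent.H54.RV Pool.Agent.H83.TU Pool.Agent.H24.TU Pool.Agent.H24.TV Pool.Agent.H20.TU Pool.Agent.H39.TU
  Pool.Agent.H32.TZ Pool.Agent.H39.TQ

variable {k K : Type} [Field k] [Field K] [Algebra k K] {X : Mod k K}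

/-- `dim_F F L` is monotone -/
theorem grw_mul (hGF : GF X) {F : IntermediateField k K} {A B : Cart X} {f : K} (hf : f ∈ secL B 1) (hf0 : f ≠ 0)
    {u : ℕ} (h : GrwL F (secL (A * B) 1) u) : GrwL F (secL A 1) u := by
  unfold GrwL at h ⊢
  have hfin := lf_fin (A * B) F 1 (hGF.1 (A * B) 1)
  refine le_trans ?_ h
  obtain ⟨e, he⟩ : ∃ e : K →ₗ[F] K, e = LinearMap.mulRight F f := ⟨_, rfl⟩
  have hinj : Function.Injective e := by
    rw [he]
    intro a b hab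
    exact mul_right_cancel₀ hf0 hab
  have h1 : Module.finrank F ((Submodule.span F (secL A 1 : Set K)).map e) =
      Module.finrank F (Submodule.span F (secL A 1 : Set K)) :=
    (LinearEquiv.finrank_eq (Submodule.equivMapOfInjective e hinj (Submodule.span F (secL A 1 : Set K)))).symm
  rw [← h1]
  refine Submodule.finrank_mono ?_
  rw [Submodule.map_span, Submodule.span_le]
  rintro _ ⟨a, ha, rfl⟩
  refine Submodule.subset_span ?_
  rw [he]
  exact sec_mul ha hf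

theorem exists_sec {D : Cart X} (h : 0 < h0 D 1) : ∃ f ∈ secL D 1, f ≠ 0 := by
  by_contra hcon
  push Not at hcon
  have h2 : Subsingleton (secL D 1) := ⟨fun a b => Subtype.ext (by rw [hcon _ a.2, hcon _ b.2])⟩
  unfold h0 at h
  rw [Module.finrank_zero_of_subsingleton] at h
  exact lt_irrefl _ h

theorem engine [IsAlgClosed k] [CharZero k] (h : Hyp X) (hS : SurfMov X) (hF : Fld1 X) (hC : Chain k K)
    (hE : EndF h.var h.gen) : Engine h.var h.gen := by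
  intro D th hth hD hv
  have hGF := gf h.var h.gen h.tr
  by_cases hmov : ∃ u : ℕ, ∃ᶠ n in Filter.atTop, Mov (D n) u ∨ Mov (D n * D (n + 1)) u
  · exact Or.inl hmov
  right
  push Not at hmov
  have hno : ∀ u : ℕ, ∀ᶠ n in Filter.atTop, ¬ Mov (D n) u ∧ ¬ Mov (D n * D (n + 1)) u := by
    intro u
    filter_upwards [hmov u] with n hn
    exact hn
  obtain ⟨e, he1, he⟩ := exists_e th hth
  obtain ⟨u₀, hu₀⟩ : ∃ u₀, u₀ = (e + 2).choose 3 := ⟨_, rfl⟩
  have hD1 : Filter.Tendsto (fun n => h0 (D (n + 1)) 1) Filter.atTop Filter.atTop :=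
    hD.comp (Filter.tendsto_add_atTop_nat 1)
  -- the field of `D n * D (n + 1)`
  have hfld : ∀ᶠ n in Filter.atTop, ∃ F : IntermediateField k K, Algebra.trdeg F K = 1 ∧ Clo F ∧
      GrwL F (secL (D n) 1) u₀ ∧ GrwL F (secL (D (n + 1)) 1) u₀ := by
    filter_upwards [hno ((2 * e + 3).choose 3), hv, hD.eventually_gt_atTop ((2 * e + 2).choose 3),
      hD1.eventually_gt_atTop 0] with n h1 h2 h3 h4
    obtain ⟨f, hf, hf0⟩ := exists_sec (Nat.zero_lt_of_lt h3)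
    obtain ⟨g, hg, hg0⟩ := exists_sec h4
    have h5 : (2 * e + 2).choose 3 < h0 (D n * D (n + 1)) 1 := h3.trans_le (h0_mul_le hGF hg hg0)
    have h6 : SmV ((1 + 3 / (e : ℝ)) ^ 3) (D n * D (n + 1)) := by
      obtain ⟨q, A₀, hq, hA₀, h7⟩ := h2
      refine ⟨q, A₀, hq, hA₀, lt_of_le_of_lt ?_ h7⟩
      exact mul_le_mul_of_nonneg_right he.le (Pool.Agent.H41.TU.vol_nonneg hGF _)
    rcases hF _ e he1 h5 h6 with h8 | ⟨F, h8, h9, h10⟩
    · exact absurd (hS _ _ _ le_rfl h8) h1.2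
    · rw [← hu₀] at h10
      refine ⟨F, h8, h9, grw_mul hGF hg hg0 h10, ?_⟩
      rw [mul_comm] at h10
      exact grw_mul hGF hf hf0 h10
  -- the field is constant
  obtain ⟨n₁, hn₁⟩ := Filter.eventually_atTop.1 hfld
  choose Fn hF1 hF2 hF3 hF4 using hn₁
  have hconst : ∀ᶠ n in Filter.atTop, ∀ hn : n ≥ n₁, Fn (n + 1) (by omega) = Fn n hn := by
    filter_upwards [(Filter.tendsto_add_atTop_nat 1).eventually (hno ((u₀ + u₀ + 3).choose 3))] with n h1 hn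
    by_contra hne
    have h2 := hC (secL (D (n + 1)) 1) _ _ u₀ u₀ (hGF.1 _ 1) (hF1 (n + 1) (by omega)) (hF1 n hn)
      (hF2 (n + 1) (by omega)) (hF2 n hn) hne (hF3 (n + 1) (by omega)) (hF4 n hn)
    exact h1.1 (hS _ _ _ le_rfl h2)
  obtain ⟨n₂, hn₂⟩ := Filter.eventually_atTop.1 hconst
  obtain ⟨n₃, hn₃⟩ : ∃ n₃, n₃ = max n₁ n₂ := ⟨_, rfl⟩
  have h31 : n₁ ≤ n₃ := by rw [hn₃]; exact le_max_left _ _
  have h32 : n₂ ≤ n₃ := by rw [hn₃]; exact le_max_right _ _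
  have hall : ∀ n (hn : n₃ ≤ n), Fn n (h31.trans hn) = Fn n₃ h31 := by
    intro n hn
    induction n, hn using Nat.le_induction with
    | base => rfl
    | succ n hn ih =>
      rw [← ih]
      exact hn₂ n (h32.trans hn) (h31.trans hn)
  have hR : RFun (RF h.var h.gen (Fn n₃ h31)) :=
    rfun_rf h.var h.gen (uf_all h.var) (Fn n₃ h31) (hF1 n₃ h31)
  refine ⟨Fn n₃ h31, hF1 n₃ h31, hF2 n₃ h31, fun M => ?_⟩
  obtain ⟨κ₀, hκ₀⟩ := exists_nat_gt (max 1 (2 * M))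
  have hκ1 : (1 : ℝ) < κ₀ := (le_max_left _ _).trans_lt hκ₀
  have hκ2 : 2 * M < κ₀ := (le_max_right _ _).trans_lt hκ₀
  have hκM : M ≤ (κ₀ : ℝ) ^ 2 / 2 := by nlinarith
  filter_upwards [hno ((κ₀ + u₀ + 3).choose 3), hD.eventually_gt_atTop ((κ₀ + u₀ + 3).choose 3),
    Filter.eventually_ge_atTop n₃] with n h1 h2 h3 A hA a b ha hb
  have h4 := hF3 n (h31.trans h3)
  rw [hall n h3] at h4
  rcases hE (D n) (Fn n₃ h31) u₀ κ₀ (Nat.zero_lt_of_lt h2) (hF1 n₃ h31) (hF2 n₃ h31) h4 h2 with h5 | h5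
  · exact absurd (hS _ _ _ le_rfl h5) h1.1
  · refine le_trans ?_ (h5 A hA a b ha hb)
    have h6 : (0 : ℝ) < RF h.var h.gen (Fn n₃ h31) A := by exact_mod_cast hR.amp A hA
    have h7 : (0 : ℝ) ≤ (a : ℝ) ^ 2 * b * RF h.var h.gen (Fn n₃ h31) A := by positivity
    nlinarith [mul_le_mul_of_nonneg_right hκM h7]

end Pool.Agent.H24.ZL
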