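import Pool.Agent.H32.TZ.Itf
import Pool.Agent.H83.TQ.Geo
import Pool.Agent.H24.VP.LE

/-!
# [H24 ZL G1] THEOREM Z (MP_e49dc9_ag), (G1): the base locus of the sections with order at least `e` is not a point

`SmV t E`: `t vol(E ^ q A₀) < q ^ 3 h0(E)`; after multiplication by `j` and a principal divisor: `2 ≤ q`, `B` effective
and ample.  The graded system `L_n = L(E ^ n B ^ (n / q))` has `L_1 = L(E)` and `h_n ≤ w n ^ 3` with `t w < h0(E)`
(`n = q m + r`: multiply by `s₀ ^ (q - r)`: `h_n ≤ h0 ((E ^ q B) ^ (m + 1))`); `all_exponents`, `vol_bound` of H24/TU.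
-/

set_option autoImplicit false

open scoped TensorProduct

namespace Pool.Agent.H24.ZL

open Pool.Agent.H54.RV Pool.Agent.H83.TU Pool.Agent.H24.TU Pool.Agent.H24.TV Pool.Agent.H20.TU Pool.Agent.H39.TU
  Pool.Agent.H24.VP Pool.Agent.H32.TZ

variable {k K : Type} [Field k] [Field K] [Algebra k K] {X : Mod k K}

theorem sec_mul {A B : Cart X} {a b : K} (ha : a ∈ secL A 1) (hb : b ∈ secL B 1) : a * b ∈ secL (A * B) 1 := by
  intro x
  have h1 := (X.O x).mul_mem (ha x) (hb x)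
  have h2 : a * b * (A * B).eq x ^ 1 = a * A.eq x ^ 1 * (b * B.eq x ^ 1) := by
    rw [mul_eq, mul_pow]
    ring
  rw [h2]
  exact h1

theorem sec_pow {A : Cart X} {a : K} (ha : a ∈ secL A 1) (n : ℕ) : a ^ n ∈ secL (A ^ n) 1 := by
  induction n with
  | zero =>
    intro x
    rw [pow_zero, pow_zero, one_eq, one_pow, mul_one]
    exact (X.O x).one_mem
  | succ n ih =>
    rw [pow_succ, pow_succ]
    exact sec_mul ih ha

theorem secL_pow' (A : Cart X) (j n : ℕ) : secL (A ^ j) n = secL A (j * n) := by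
  ext s
  constructor
  · intro hs x
    have h1 := hs x
    rw [pow_eq, ← pow_mul] at h1
    exact h1
  · intro hs x
    rw [pow_eq, ← pow_mul]
    exact hs x

theorem h0_mul_le (hGF : GF X) {A B : Cart X} {f : K} (hf : f ∈ secL B 1) (hf0 : f ≠ 0) :
    h0 A 1 ≤ h0 (A * B) 1 := by
  have := hGF.1 (A * B) 1
  unfold h0
  exact LinearMap.finrank_le_finrank_of_injective
    (f := ({ toFun := fun s => ⟨(s : K) * f, sec_mul s.2 hf⟩
             map_add' := fun s t => Subtype.ext (add_mul _ _ _)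
             map_smul' := fun c s => Subtype.ext (Algebra.smul_mul_assoc _ _ _) } :
      secL A 1 →ₗ[k] secL (A * B) 1))
    (fun s t hst => Subtype.ext (mul_right_cancel₀ hf0 (congrArg Subtype.val hst)))

/-- the small volume, with `2 ≤ q` and an effective ample divisor -/
theorem smv_eff (h : Hyp X) (hGF : GF X) {t : ℝ} (ht : 0 < t) {E : Cart X} (hv : SmV t E) :
    ∃ (q : ℕ) (B : Cart X) (w : ℝ), 2 ≤ q ∧ Ample B ∧ Effective B ∧
      (∀ᶠ m : ℕ in Filter.atTop, (h0 (E ^ q * B) m : ℝ) ≤ w * (m : ℝ) ^ 3) ∧ t * w < q ^ 3 * h0 E 1 := by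
  obtain ⟨q, A₀, hq, hA₀, hv⟩ := hv
  obtain ⟨g, hg⟩ := h.gen
  obtain ⟨n, hn, s, hs, hx, -⟩ := hA₀ g
  have hs0 : s ≠ 0 := by
    rintro rfl
    have h1 : Un (X.O g) (0 * A₀.eq g ^ n) := hx
    rw [zero_mul] at h1
    exact h1.1 rfl
  have hs2 : s ^ 2 ∈ secL (A₀ ^ (2 * n)) 1 := by
    rw [secL_pow', mul_one]
    intro x
    have h1 := (X.O x).mul_mem (hs x) (hs x)
    have h2 : s ^ 2 * A₀.eq x ^ (2 * n) = s * A₀.eq x ^ n * (s * A₀.eq x ^ n) := by ring
    rw [h2]
    exact h1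
  have hs20 : s ^ 2 ≠ 0 := pow_ne_zero 2 hs0
  obtain ⟨w₁, hw1, hw2⟩ : ∃ w₁, vol (E ^ q * A₀) < w₁ ∧ t * w₁ < q ^ 3 * h0 E 1 := by
    have h1 : vol (E ^ q * A₀) < q ^ 3 * h0 E 1 / t := by
      rw [lt_div_iff₀ ht, mul_comm]
      exact hv
    obtain ⟨w₁, h2, h3⟩ := exists_between h1
    refine ⟨w₁, h2, ?_⟩
    rw [lt_div_iff₀ ht, mul_comm] at h3
    exact h3
  obtain ⟨j, hj⟩ : ∃ j, j = 2 * n := ⟨_, rfl⟩
  rw [← hj] at hs2
  have hj1 : 1 ≤ j := by omega
  have hjt : Filter.Tendsto (fun m : ℕ => j * m) Filter.atTop Filter.atTop :=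
    Filter.tendsto_atTop_mono (fun m => Nat.le_mul_of_pos_left m hj1) Filter.tendsto_id
  refine ⟨j * q, A₀ ^ j * prin X (s ^ 2) hs20, w₁ * j ^ 3, ?_, ample_prin _ _ _ (ample_pow A₀ j hj1 hA₀), ?_, ?_, ?_⟩
  · calc 2 ≤ 2 * n * 1 := by omega
      _ ≤ j * q := by rw [hj]; exact Nat.mul_le_mul_left _ hq
  · intro x
    have h1 := hs2 x
    have h2 : (A₀ ^ j * prin X (s ^ 2) hs20).eq x = s ^ 2 * (A₀ ^ j).eq x ^ 1 := by
      rw [pow_one, mul_comm (s ^ 2)]
      rfl
    rw [h2]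
    exact h1
  · filter_upwards [hjt.eventually (vol_ev hGF _ w₁ hw1)] with m hm
    have e1 : h0 (E ^ (j * q) * (A₀ ^ j * prin X (s ^ 2) hs20)) m = h0 (E ^ q * A₀) (j * m) := by
      rw [← mul_assoc, (LEq.prin _ _ _).h0 m]
      have e2 : E ^ (j * q) * A₀ ^ j = (E ^ q * A₀) ^ j := by rw [mul_pow, ← pow_mul, mul_comm j q]
      rw [e2]
      unfold h0
      rw [secL_pow']
    rw [e1]
    refine hm.trans (le_of_eq ?_)
    push_cast
    ring
  · push_cast
    have h1 : (0 : ℝ) < (j : ℝ) ^ 3 := by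
      have : (0 : ℝ) < j := by exact_mod_cast hj1
      positivity
    have h2 := mul_lt_mul_of_pos_right hw2 h1
    calc t * (w₁ * (j : ℝ) ^ 3) = (t * w₁) * (j : ℝ) ^ 3 := by ring
      _ < ((q : ℝ) ^ 3 * (h0 E 1 : ℝ)) * (j : ℝ) ^ 3 := h2
      _ = ((j : ℝ) * q) ^ 3 * (h0 E 1 : ℝ) := by ring

/-- the spaces of the graded system -/
noncomputable def W (E B : Cart X) (q n : ℕ) : Cart X := E ^ n * B ^ (n / q)

theorem W_one (E B : Cart X) {q : ℕ} (hq : 2 ≤ q) : W E B q 1 = E := by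
  unfold W
  rw [pow_one, Nat.div_eq_of_lt (by omega), pow_zero, mul_one]

/-- the growth of the graded system -/
theorem W_ev (hGF : GF X) {t : ℝ} (ht : 0 < t) {E B : Cart X} {q : ℕ} (hq : 2 ≤ q) (hB : Effective B)
    (hE : 0 < h0 E 1) {w : ℝ} (hw : ∀ᶠ m : ℕ in Filter.atTop, (h0 (E ^ q * B) m : ℝ) ≤ w * (m : ℝ) ^ 3)
    (h1 : t * w < q ^ 3 * h0 E 1) :
    ∃ w' : ℝ, (∀ᶠ n : ℕ in Filter.atTop, (h0 (W E B q n) 1 : ℝ) ≤ w' * (n : ℝ) ^ 3) ∧ t * w' < h0 E 1 := by
  have hq0 : (0 : ℝ) < q := by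
    have : 0 < q := by omega
    exact_mod_cast this
  have hw0 : 0 ≤ w := by
    obtain ⟨m, hm1, hm2⟩ := (hw.and (Filter.eventually_ge_atTop 1)).exists
    have h2 : (0 : ℝ) ≤ w * (m : ℝ) ^ 3 := (Nat.cast_nonneg _).trans hm1
    have h3 : (0 : ℝ) < (m : ℝ) ^ 3 := by
      have : (0 : ℝ) < m := by exact_mod_cast hm2
      positivity
    exact nonneg_of_mul_nonneg_left h2 h3
  obtain ⟨f, hf, hf0⟩ : ∃ f ∈ secL E 1, f ≠ 0 := by
    by_contra hcon
    push Not at hcon
    have h2 : Subsingleton (secL E 1) := ⟨fun a b => Subtype.ext (by rw [hcon _ a.2, hcon _ b.2])⟩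
    unfold h0 at hE
    rw [Module.finrank_zero_of_subsingleton] at hE
    exact lt_irrefl _ hE
  have hB1 : (1 : K) ∈ secL B 1 := by
    intro x
    rw [one_mul, pow_one]
    exact hB x
  -- `h_n ≤ h0 ((E ^ q B) ^ (n / q + 1))`
  have hle : ∀ n, h0 (W E B q n) 1 ≤ h0 (E ^ q * B) (n / q + 1) := by
    intro n
    have h2 : n % q < q := Nat.mod_lt _ (by omega)
    have h3 := Nat.div_add_mod n q
    have h4 : W E B q n * (E ^ (q - n % q) * B) = (E ^ q * B) ^ (n / q + 1) := by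
      unfold W
      rw [mul_pow, ← pow_mul, pow_succ B, mul_mul_mul_comm, ← pow_add]
      have : n + (q - n % q) = q * (n / q + 1) := by
        rw [mul_add, mul_one]
        omega
      rw [this]
    have h5 := h0_mul_le hGF (A := W E B q n) (sec_mul (sec_pow hf (q - n % q)) hB1)
      (mul_ne_zero (pow_ne_zero _ hf0) one_ne_zero)
    rw [h4] at h5
    refine h5.trans (le_of_eq ?_)
    unfold h0
    rw [secL_pow', mul_one]
  obtain ⟨w', hw1, hw2⟩ : ∃ w', w / q ^ 3 < w' ∧ t * w' < h0 E 1 := by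
    have h2 : w / q ^ 3 < h0 E 1 / t := by
      rw [div_lt_div_iff₀ (by positivity) ht]
      linarith
    obtain ⟨w', h3, h4⟩ := exists_between h2
    refine ⟨w', h3, ?_⟩
    rw [lt_div_iff₀ ht] at h4
    linarith
  refine ⟨w', ?_, hw2⟩
  have hnt : Filter.Tendsto (fun n : ℕ => n / q + 1) Filter.atTop Filter.atTop := by
    refine Filter.tendsto_atTop_mono (fun n => Nat.le_succ _) ?_
    exact Nat.tendsto_div_const_atTop (by omega)
  -- `w (n / q + 1) ^ 3 ≤ w' n ^ 3` for large `n`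
  have hlim : Filter.Tendsto (fun n : ℕ => w * ((1 : ℝ) / q + 1 / (n : ℝ)) ^ 3) Filter.atTop
      (nhds (w * ((1 : ℝ) / q + 0) ^ 3)) :=
    ((tendsto_const_nhds.add tendsto_one_div_atTop_nhds_zero_nat).pow 3).const_mul w
  have hlt : w * ((1 : ℝ) / q + 0) ^ 3 < w' := by
    rw [add_zero, div_pow, one_pow, mul_one_div]
    exact hw1
  filter_upwards [hnt.eventually hw, hlim.eventually_lt_const hlt, Filter.eventually_ge_atTop 1] with n h2 h3 h4
  have hn0 : (0 : ℝ) < n := by exact_mod_cast h4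
  have h5 : (h0 (W E B q n) 1 : ℝ) ≤ h0 (E ^ q * B) (n / q + 1) := by exact_mod_cast hle n
  have h6 : ((n / q + 1 : ℕ) : ℝ) ≤ n * (1 / q + 1 / n) := by
    push_cast
    have h7 : ((n / q : ℕ) : ℝ) ≤ n / q := Nat.cast_div_le
    have h8 : (n : ℝ) * (1 / q + 1 / n) = n / q + 1 := by
      field_simp
    rw [h8]
    linarith
  calc (h0 (W E B q n) 1 : ℝ) ≤ h0 (E ^ q * B) (n / q + 1) := h5
    _ ≤ w * ((n / q + 1 : ℕ) : ℝ) ^ 3 := h2
    _ ≤ w * ((n : ℝ) * (1 / q + 1 / n)) ^ 3 :=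
        mul_le_mul_of_nonneg_left (pow_le_pow_left₀ (Nat.cast_nonneg _) h6 3) hw0
    _ = (w * (1 / q + 1 / n) ^ 3) * (n : ℝ) ^ 3 := by ring
    _ ≤ w' * (n : ℝ) ^ 3 := mul_le_mul_of_nonneg_right h3.le (by positivity)

/-- **(G1)** -/
theorem g1 [IsAlgClosed k] [CharZero k] (h : Hyp X) (E : Cart X) {e : ℕ} (he : 1 ≤ e) (hE : 0 < h0 E 1)
    (hv : SmV ((1 + 3 / (e : ℝ)) ^ 3) E) :
    ∃ V : Ideal (K ⊗[k] K), V.IsPrime ∧ V ≤ dI k K ∧ V ≠ dI k K ∧
      ∀ G ∈ (secL E 1).baseChange K, OrdGE (dI k K) e G → G ∈ V := by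
  have hess : Algebra.EssFiniteType k K := by
    have h1 := K_fg h.var h.gen
    have h2 := IntermediateField.essFiniteType_iff.2 h1
    exact Algebra.EssFiniteType.of_surjective
      (IntermediateField.topEquiv (F := k) (E := K)).toAlgHom
      (IntermediateField.topEquiv (F := k) (E := K)).surjective
  have hGF := gf h.var h.gen h.tr
  have hUF := uf_all h.var
  obtain ⟨C₀⟩ := exists_coord (k := k) (K := K) h.tr
  have ht : (0 : ℝ) < (1 + 3 / (e : ℝ)) ^ 3 := by positivity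
  obtain ⟨q, B, w, hq, hB, hBe, hw, h1⟩ := smv_eff h hGF ht hv
  obtain ⟨w', hw', h2⟩ := W_ev hGF ht hq hBe hE hw h1
  obtain ⟨f, hf, hf0⟩ : ∃ f ∈ secL E 1, f ≠ 0 := by
    by_contra hcon
    push Not at hcon
    have h2 : Subsingleton (secL E 1) := ⟨fun a b => Subtype.ext (by rw [hcon _ a.2, hcon _ b.2])⟩
    unfold h0 at hE
    rw [Module.finrank_zero_of_subsingleton] at hE
    exact lt_irrefl _ hE
  have hB1 : (1 : K) ∈ secL B 1 := by
    intro x
    rw [one_mul, pow_one]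
    exact hBe x
  let S : GSys k K :=
    { L := fun n => secL (W E B q n) 1
      one_mem := fun y => by
        unfold W
        rw [pow_zero, Nat.zero_div, pow_zero, mul_one, one_eq, one_pow, mul_one]
        exact (X.O y).one_mem
      mul_mem := by
        intro m n a b ha hb
        have h3 := sec_mul (sec_mul ha hb) (sec_pow hB1 ((m + n) / q - (m / q + n / q)))
        rw [one_pow, mul_one] at h3
        have h4 : m / q + n / q ≤ (m + n) / q := Nat.div_add_div_le_add_div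
        have h5 : W E B q m * W E B q n * B ^ ((m + n) / q - (m / q + n / q)) = W E B q (m + n) := by
          unfold W
          rw [mul_mul_mul_comm, ← pow_add, ← pow_add, mul_assoc, ← pow_add, Nat.add_sub_cancel' h4]
        rw [h5] at h3
        exact h3
      fin := fun n => hGF.1 _ 1
      ne_bot := by
        show secL (W E B q 1) 1 ≠ ⊥
        rw [W_one E B hq]
        intro h3
        rw [h3] at hf
        exact hf0 ((Submodule.mem_bot k).1 hf)
      frac := by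
        intro g
        obtain ⟨n, a, ha, s, hs, hs0, hg⟩ := frac_sec h hUF B hB g
        have e1 : W E B q (q * n) = E ^ (q * n) * B ^ n := by
          unfold W
          rw [Nat.mul_div_cancel_left _ (by omega)]
        have e2 : ∀ c ∈ secL B n, f ^ (q * n) * c ∈ secL (W E B q (q * n)) 1 := by
          intro c hc
          rw [e1]
          refine sec_mul (sec_pow hf _) ?_
          rw [secL_pow', mul_one]
          exact hc
        refine ⟨q * n, f ^ (q * n) * a, e2 a ha, f ^ (q * n) * s, e2 s hs,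
          mul_ne_zero (pow_ne_zero _ hf0) hs0, ?_⟩
        rw [← hg]
        ring }
  have hS1 : S.L 1 = secL E 1 := by
    show secL (W E B q 1) 1 = _
    rw [W_one E B hq]
  by_contra hcon
  push Not at hcon
  obtain ⟨c, hc⟩ := all_exponents C₀ S he fun Q hQ h3 h4 => by
    by_contra h5
    obtain ⟨G, hG, hG1, hG2⟩ := hcon Q hQ h4 h5
    refine hG2 (h3 (Ideal.subset_span ⟨?_, hG1⟩))
    show G ∈ (S.L 1).baseChange K
    rw [hS1]
    exact hG
  have h3 := vol_bound C₀ S he hc w' hw'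
  rw [hS1] at h3
  exact absurd h2 (not_lt.2 h3)

end Pool.Agent.H24.ZL
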