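import Pool.Agent.H24.VP.Dec
import Pool.Agent.H24.VP.Hdg
import Pool.Agent.H24.VP.HdA

/-!
# [H24 ZL HdR] THEOREM Z (MP_e49dc9_ag), (LB): the index theorem for real combinations of divisors

`bf T H F x y = ∑ x_i y_j T(F_i,F_j,H)`.  `hdg_real`: `0 < bf x x` implies `bf x x * bf y y ≤ bf x y ^ 2`.
-/

set_option autoImplicit false

namespace Pool.Agent.H24.ZL

open Pool.Agent.H54.RV Pool.Agent.H83.TU Pool.Agent.H83.TK Pool.Agent.H24.TK Pool.Agent.H41.TK Pool.Agent.H24.VP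

variable {k K : Type} [Field k] [Field K] [Algebra k K] {X : Mod k K}
  {T : Cart X → Cart X → Cart X → ℝ} {l : Cart X → ℝ} {c : ℝ} {H : Cart X}

/-- the intersection form on real combinations -/
noncomputable def bf {ι : Type} [Fintype ι] (T : Cart X → Cart X → Cart X → ℝ) (H : Cart X) (F : ι → Cart X)
    (x y : ι → ℝ) : ℝ :=
  ∑ i, ∑ j, x i * y j * T (F i) (F j) H

theorem bf_smul {ι : Type} [Fintype ι] (F : ι → Cart X) (x y : ι → ℝ) (a b : ℝ) :
    bf T H F (fun i => a * x i) (fun i => b * y i) = a * b * bf T H F x y := by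
  unfold bf
  rw [Finset.mul_sum]
  refine Finset.sum_congr rfl fun i _ => ?_
  rw [Finset.mul_sum]
  refine Finset.sum_congr rfl fun j _ => ?_
  ring

theorem zprod {ι : Type} [Fintype ι] (ht : Tri T) (F : ι → Cart X) (n : ι → ℤ) (U V : Cart X) :
    T (∏ i, F i ^ n i) U V = ∑ i, n i * T (F i) U V := by
  rw [ht.prod]
  exact Finset.sum_congr rfl fun i _ => ht.zpow _ _ _ _

theorem bf_int {ι : Type} [Fintype ι] (ht : Tri T) (F : ι → Cart X) (n m : ι → ℤ) :
    bf T H F (fun i => (n i : ℝ)) (fun i => (m i : ℝ)) = T (∏ i, F i ^ n i) (∏ i, F i ^ m i) H := by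
  unfold bf
  rw [zprod ht]
  refine Finset.sum_congr rfl fun i _ => ?_
  rw [ht.s12, zprod ht, Finset.mul_sum]
  refine Finset.sum_congr rfl fun j _ => ?_
  rw [ht.s12 (F j)]
  ring

theorem bf_cont {ι : Type} [Fintype ι] (F : ι → Cart X) :
    Continuous fun q : (ι → ℝ) × (ι → ℝ) => bf T H F q.1 q.2 := by
  unfold bf
  fun_prop

private theorem com_den {ι : Type} [Fintype ι] (q : ι → ℚ) : ∃ N : ℕ, 0 < N ∧ ∃ z : ι → ℤ, ∀ i, (z i : ℝ) = N * (q i : ℝ) := by
  classical
  refine ⟨∏ i, (q i).den, Finset.prod_pos fun i _ => (q i).pos, ?_⟩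
  have h : ∀ i, ∃ z : ℤ, (z : ℝ) = (∏ i, (q i).den : ℕ) * (q i : ℝ) := by
    intro i
    obtain ⟨d, hd⟩ := Finset.dvd_prod_of_mem (fun i => (q i).den) (Finset.mem_univ i)
    rw [hd]
    refine ⟨d * (q i).num, ?_⟩
    have h1 : ((q i : ℚ) : ℝ) = (q i).num / (q i).den := by
      exact_mod_cast (Rat.num_div_den (q i)).symm
    have h2 : ((q i).den : ℝ) ≠ 0 := by exact_mod_cast (q i).den_ne_zero
    rw [h1]
    push_cast
    field_simp
  exact Classical.axiomOfChoice h

theorem hdg_real (hr : RR T l c) {k' L : Type} [Field k'] [Field L] [Algebra k' L] {S : Mod k' L}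
    {ψ : Cart X →* Cart S} (hS : Sf H S ψ) (hi : ∀ A B C, ∃ z : ℤ, T A B C = z) {ι : Type} [Fintype ι]
    (F : ι → Cart X) (x y : ι → ℝ) (hx : 0 < bf T H F x x) :
    bf T H F x x * bf T H F y y ≤ bf T H F x y ^ 2 := by
  have hc : DenseRange fun (q : ι → ℚ) (i : ι) => (q i : ℝ) :=
    DenseRange.piMap (f := fun _ : ι => ((↑) : ℚ → ℝ)) fun _ => Rat.denseRange_cast
  have hcl : IsClosed {q : (ι → ℝ) × (ι → ℝ) | bf T H F q.1 q.1 ≤ 0 ∨
      bf T H F q.1 q.1 * bf T H F q.2 q.2 ≤ bf T H F q.1 q.2 ^ 2} := by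
    have h11 : Continuous fun q : (ι → ℝ) × (ι → ℝ) => bf T H F q.1 q.1 :=
      (bf_cont F).comp (continuous_fst.prodMk continuous_fst)
    have h22 : Continuous fun q : (ι → ℝ) × (ι → ℝ) => bf T H F q.2 q.2 :=
      (bf_cont F).comp (continuous_snd.prodMk continuous_snd)
    exact (isClosed_le h11 continuous_const).union
      (isClosed_le (h11.mul h22) ((bf_cont F).pow 2))
  have h := hc.induction_on₂ (p := fun x y => bf T H F x x ≤ 0 ∨ bf T H F x x * bf T H F y y ≤ bf T H F x y ^ 2)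
    hcl (fun q₁ q₂ => ?_) x y
  · exact h.resolve_left (not_le.2 hx)
  · obtain ⟨N, hN, n, hn⟩ := com_den q₁
    obtain ⟨M, hM, m, hm⟩ := com_den q₂
    have hN' : (0 : ℝ) < N := by exact_mod_cast hN
    have hM' : (0 : ℝ) < M := by exact_mod_cast hM
    rcases le_or_gt (bf T H F (fun i => (q₁ i : ℝ)) fun i => (q₁ i : ℝ)) 0 with h1 | h1
    · exact Or.inl h1
    · right
      have e1 : T (∏ i, F i ^ n i) (∏ i, F i ^ n i) H =
          N * N * bf T H F (fun i => (q₁ i : ℝ)) fun i => (q₁ i : ℝ) := by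
        rw [← bf_int hr.tri, ← bf_smul]
        simp only [hn]
      have e2 : T (∏ i, F i ^ m i) (∏ i, F i ^ m i) H =
          M * M * bf T H F (fun i => (q₂ i : ℝ)) fun i => (q₂ i : ℝ) := by
        rw [← bf_int hr.tri, ← bf_smul]
        simp only [hm]
      have e3 : T (∏ i, F i ^ n i) (∏ i, F i ^ m i) H =
          N * M * bf T H F (fun i => (q₁ i : ℝ)) fun i => (q₂ i : ℝ) := by
        rw [← bf_int hr.tri, ← bf_smul]
        simp only [hn, hm]
      have h2 := hdg_L hr.tri hi (crv_num hr hS).1 (hdg hr hS) (∏ i, F i ^ n i) (∏ i, F i ^ m i) (by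
        rw [e1]
        positivity)
      rw [e1, e2, e3] at h2
      have h3 : (0 : ℝ) < (N * M) ^ 2 := by positivity
      refine le_of_mul_le_mul_left ?_ h3
      calc _ = _ := by ring
        _ ≤ _ := h2
        _ = _ := by ring

end Pool.Agent.H24.ZL
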