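import Pool.Agent.H24.ZL.G1
import Pool.Agent.H41.TQ.Dom
import Pool.Agent.H24.TU.Cmp
import Pool.Agent.H24.TU.Trans
import Pool.Agent.H24.TU.Fld

/-!
# [H24 ZL Tr] THEOREM Z (MP_e49dc9_ag), (TR) and `Fld1`

`V < dI` a prime with `trdeg_K ((K ⊗ K) / V) = 1` which contains all `G ∈ L ⊗ K` of order at least `e`.
`dim_im`: the image of `L ⊗ K` in `(K ⊗ K) / V` has dimension at most `C(e + 2, 3)`.
`ord_cmp`: `ord_x ≥ 2 e - 1` implies `ord_V ≥ e`.
`tr`: a surface, or a field `F` with `dim_F F L ≤ C(e + 2, 3)`.  `fld1`: `Fld1 X`.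
-/

set_option autoImplicit false

open scoped TensorProduct

namespace Pool.Agent.H24.ZL

open Pool.Agent.H54.RV Pool.Agent.H83.TU Pool.Agent.H24.TU Pool.Agent.H24.TV Pool.Agent.H20.TU Pool.Agent.H39.TU
  Pool.Agent.H32.TZ Pool.Agent.H39.TQ

section alg

variable {k K : Type} [Field k] [Field K] [Algebra k K]

theorem bc_tmul {κ : Type} [Field κ] [Algebra k κ] {L : Submodule k K} (x : κ) {f : K} (hf : f ∈ L) :
    x ⊗ₜ[k] f ∈ L.baseChange κ :=
  Submodule.tmul_mem_baseChange_of_mem x hf

private theorem dX_smul' (θ : Derivation k K K) (c : K) (x : K ⊗[k] K) :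
    dX K θ (c • x) = c • dX K θ x + θ c • x := by
  induction x using TensorProduct.induction_on with
  | zero => simp
  | add a b ha hb =>
    rw [smul_add, map_add, ha, hb, map_add, smul_add, smul_add]
    abel
  | tmul y f =>
    rw [TensorProduct.smul_tmul', dX_tmul, dX_tmul, TensorProduct.smul_tmul',
      TensorProduct.smul_tmul', smul_eq_mul, smul_eq_mul, smul_eq_mul, Derivation.leibniz,
      smul_eq_mul, smul_eq_mul, TensorProduct.add_tmul, mul_comm (θ c) y]

theorem bc_dX {L : Submodule k K} {a : K ⊗[k] K} (ha : a ∈ L.baseChange K) (θ : Derivation k K K) :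
    dX K θ a ∈ L.baseChange K := by
  rw [Submodule.baseChange_eq_span] at ha
  induction ha using Submodule.span_induction with
  | mem a ha =>
    obtain ⟨f, hf, rfl⟩ := ha
    change dX K θ ((1 : K) ⊗ₜ[k] f) ∈ _
    rw [dX_tmul]
    exact bc_tmul _ hf
  | zero =>
    rw [map_zero]
    exact zero_mem _
  | add x y _ _ hx hy =>
    rw [map_add]
    exact add_mem hx hy
  | smul c x hx0 hx =>
    rw [dX_smul']
    refine add_mem (Submodule.smul_mem _ _ hx) (Submodule.smul_mem _ _ ?_)
    rw [Submodule.baseChange_eq_span]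
    exact hx0

private theorem ord_cmp_aux [CharZero k] [Algebra.EssFiniteType k K] {L : Submodule k K} {e : ℕ}
    {P : Ideal (K ⊗[k] K)} (hV : ∀ G ∈ L.baseChange K, OrdGE (dI k K) e G → G ∈ P) (m : ℕ) :
    ∀ f ∈ L.baseChange K, ∀ r : ℕ, (m = 0 ∨ m + e ≤ r + 1) → OrdGE (dI k K) r f → SmGE P m f := by
  induction m with
  | zero => intro f _ r _ _; trivial
  | succ m ih =>
    intro f hf r hr h
    have hr1 : m + e ≤ r := by omega
    refine ⟨hV f hf (OrdGE_mono (by omega) h), fun θ => ?_⟩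
    rcases r with _ | r
    · have hm : m = 0 := by omega
      rw [hm]
      trivial
    · exact ih _ (bc_dX hf θ) r (Or.inr hr1) (ordGE_dX inferInstance r h θ)

/-- comparison of orders -/
theorem ord_cmp [CharZero k] [Algebra.EssFiniteType k K] {L : Submodule k K} {e : ℕ}
    {P : Ideal (K ⊗[k] K)} (hP : P.IsPrime) (hV : ∀ G ∈ L.baseChange K, OrdGE (dI k K) e G → G ∈ P)
    {f : K ⊗[k] K} (hf : f ∈ L.baseChange K) {r : ℕ} (h : OrdGE (dI k K) r f) : OrdGE P (r + 1 - e) f :=
  ordGE_of_smGE hP _ (ord_cmp_aux hV (r + 1 - e) f hf r (by omega) h)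

/-- the coefficients of degree at most `d` of the Taylor series -/
noncomputable def tco [CharZero k] (C : Coord k K) (d : ℕ) :
    (K ⊗[k] K) →ₗ[K] ({a : Fin 3 →₀ ℕ | a.degree ≤ d} → K) where
  toFun G a := MvPowerSeries.coeff (a : Fin 3 →₀ ℕ) (tay C G)
  map_add' := by
    intro f g
    funext a
    rw [tay_add, map_add]
    rfl
  map_smul' := by
    intro c f
    funext a
    rw [tay_smul, map_smul]
    rfl

theorem tco_ord [CharZero k] [IsAlgClosed k] (C : Coord k K) (d : ℕ) (G : K ⊗[k] K) :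
    tco C d G = 0 ↔ OrdGE (dI k K) (d + 1) G := by
  rw [ordGE_iff C (d + 1) G]
  constructor
  · intro h a ha
    have h1 := congrFun h ⟨a, by
      show a.degree ≤ d
      omega⟩
    exact h1
  · intro h
    funext a
    exact h a (by
      have := a.2
      have h2 : (a : Fin 3 →₀ ℕ).degree ≤ d := this
      omega)

theorem finrank_tco (d : ℕ) :
    Module.finrank K ({a : Fin 3 →₀ ℕ | a.degree ≤ d} → K) = (d + 3).choose 3 ∧
      Module.Finite K ({a : Fin 3 →₀ ℕ | a.degree ≤ d} → K) := by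
  obtain ⟨h1, h2⟩ := card_degree_le d
  have := h1.fintype
  refine ⟨?_, inferInstance⟩
  rw [Module.finrank_fintype_fun_eq_card, ← h2, ← Set.toFinset_card, Set.ncard_eq_toFinset_card']

/-- a linear map whose kernel contains the kernel of another one -/
theorem finrank_range_le_range {V A B : Type} [AddCommGroup V] [Module K V] [AddCommGroup A] [Module K A]
    [AddCommGroup B] [Module K B] [Module.Finite K V] (f : V →ₗ[K] A) (g : V →ₗ[K] B)
    (h : LinearMap.ker g ≤ LinearMap.ker f) :
    Module.finrank K (LinearMap.range f) ≤ Module.finrank K (LinearMap.range g) := by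
  have h1 := LinearMap.finrank_range_add_finrank_ker f
  have h2 := LinearMap.finrank_range_add_finrank_ker g
  have h3 := Submodule.finrank_mono h
  omega

theorem bc_finite (L : Submodule k K) [FiniteDimensional k L] : Module.Finite K (L.baseChange K) := by
  have h : L.baseChange K = LinearMap.range (L.subtype.baseChange K) := rfl
  rw [h]
  infer_instance

theorem finrank_bc (L : Submodule k K) [FiniteDimensional k L] :
    Module.finrank K (L.baseChange K) = Module.finrank k L := by
  have h : L.baseChange K = LinearMap.range (L.subtype.baseChange K) := rfl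
  have hinj : Function.Injective (L.subtype.baseChange K) :=
    Module.Flat.lTensor_preserves_injective_linearMap (M := K) L.subtype (Submodule.subtype_injective _)
  rw [h, LinearMap.finrank_range_of_inj hinj]
  exact Module.finrank_baseChange

/-- the image of `L ⊗ K` in `(K ⊗ K) / V` -/
theorem dim_im [CharZero k] [IsAlgClosed k] (C : Coord k K) (L : Submodule k K) [FiniteDimensional k L]
    (V : Ideal (K ⊗[k] K)) {e : ℕ} (he : 1 ≤ e)
    (hV : ∀ G ∈ L.baseChange K, OrdGE (dI k K) e G → G ∈ V) :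
    Module.finrank K ((L.baseChange K).map (Ideal.Quotient.mkₐ K V).toLinearMap) ≤ (e + 2).choose 3 := by
  have hfin := bc_finite L
  obtain ⟨d, rfl⟩ : ∃ d, e = d + 1 := ⟨e - 1, by omega⟩
  obtain ⟨h1, h2⟩ := finrank_tco (K := K) d
  have h3 := finrank_range_le_range
    ((Ideal.Quotient.mkₐ K V).toLinearMap ∘ₗ (L.baseChange K).subtype) (tco C d ∘ₗ (L.baseChange K).subtype) (by
      intro G hG
      rw [LinearMap.mem_ker] at hG ⊢
      have h4 : tco C d (G : K ⊗[k] K) = 0 := hG
      exact Ideal.Quotient.eq_zero_iff_mem.2 (hV G G.2 ((tco_ord C d G).1 h4)))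
  rw [LinearMap.range_comp, Submodule.range_subtype] at h3
  refine h3.trans ?_
  rw [show d + 1 + 2 = d + 3 by omega, ← h1]
  exact Submodule.finrank_le _

theorem dim_le [CharZero k] [IsAlgClosed k] (C : Coord k K) (L : Submodule k K) [FiniteDimensional k L]
    {e : ℕ} (he : 1 ≤ e) (hV : ∀ G ∈ L.baseChange K, OrdGE (dI k K) e G → G = 0) :
    Module.finrank k L ≤ (e + 2).choose 3 := by
  have hfin := bc_finite L
  obtain ⟨d, rfl⟩ : ∃ d, e = d + 1 := ⟨e - 1, by omega⟩
  obtain ⟨h1, h2⟩ := finrank_tco (K := K) d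
  rw [← finrank_bc L, show d + 1 + 2 = d + 3 by omega, ← h1]
  refine LinearMap.finrank_le_finrank_of_injective (f := tco C d ∘ₗ (L.baseChange K).subtype) ?_
  rw [injective_iff_map_eq_zero]
  intro G hG
  exact Subtype.ext (hV G G.2 ((tco_ord C d G).1 hG))

section pts

variable {κ : Type} [Field κ] [Algebra k κ]

private theorem tr_smul {X : Type} [Field X] [Algebra k X] (c : X) (v : X ⊗[k] K) :
    c • v = (c ⊗ₜ[k] (1 : K)) * v := by
  rw [Algebra.smul_def, Algebra.TensorProduct.algebraMap_apply]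
  rfl

private theorem tr_chg (φ : K →ₐ[k] κ) (L : Submodule k K) {f : K ⊗[k] K} (hf : f ∈ L.baseChange K) :
    chg K φ f ∈ L.baseChange κ := by
  rw [Submodule.baseChange_eq_span] at hf
  induction hf using Submodule.span_induction with
  | mem a ha =>
    obtain ⟨f, hf, rfl⟩ := ha
    change chg K φ ((1 : K) ⊗ₜ[k] f) ∈ _
    rw [chg_tmul]
    exact Submodule.tmul_mem_baseChange_of_mem _ hf
  | zero => rw [map_zero]; exact Submodule.zero_mem _
  | add a b _ _ ha hb => rw [map_add]; exact Submodule.add_mem _ ha hb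
  | smul c v _ hv =>
    have h : chg K φ (c • v) = φ c • chg K φ v := by
      rw [tr_smul, map_mul, chg_tmul, tr_smul]
    rw [h]
    exact Submodule.smul_mem _ _ hv

private theorem tr_comap_x (x y : K →ₐ[k] κ) :
    (ptI (AlgHom.id k κ) y).comap (chg K x) = ptI x y := by
  have h : ∀ u : K ⊗[k] K, pt (AlgHom.id k κ) y (chg K x u) = pt x y u := by
    intro u
    induction u using TensorProduct.induction_on with
    | zero => simp
    | add a b ha hb => simp only [map_add, ha, hb]
    | tmul a f => simp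
  ext u
  rw [Ideal.mem_comap, mem_ptI, mem_ptI, h]

/-- **(TR)**: transitivity or a surface -/
theorem tr_or [CharZero k] [Algebra.EssFiniteType k K] (L : Submodule k K) (hL : FiniteDimensional k L) {e : ℕ}
    (he : 1 ≤ e) (x y : K →ₐ[k] κ) (hPI : ptI x y ≤ dI k K)
    (hV : ∀ G ∈ L.baseChange K, OrdGE (dI k K) e G → G ∈ ptI x y) :
    (ptI x y).map (chg K x) ≤ (ptI x y).map (chg K y) ∨
      ∃ W : Ideal (K ⊗[k] K), W.IsPrime ∧ W < ptI x y ∧
        ∀ G ∈ L.baseChange K, OrdGE (dI k K) (2 * e - 1) G → G ∈ W := by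
  have hP : (ptI x y).IsPrime := inferInstance
  by_cases hall : ∀ Q ∈ ((ptI x y).map (chg K y)).minimalPrimes, Q ≤ ptI (AlgHom.id k κ) y →
      Q.comap (chg K x) = ptI x y
  · left
    rw [Ideal.map_le_iff_le_comap]
    intro p hp
    rw [Ideal.mem_comap]
    obtain ⟨s, hs, n, hn⟩ := exists_mul_pow_mem (ptI (AlgHom.id k κ) y) inferInstance
      ((ptI x y).map (chg K y)) (chg K x p) (by
        intro Q hQ hQI
        have h1 : p ∈ Q.comap (chg K x) := by rw [hall Q hQ hQI]; exact hp
        exact h1)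
    exact map_isRadical y hP ⟨n, saturated y hP hPI hs hn⟩
  · right
    push Not at hall
    obtain ⟨Q, hQ, hQI, hne⟩ := hall
    have hQp : Q.IsPrime := hQ.1.1
    have hle : Q.comap (chg K x) ≤ ptI x y := by
      rw [← tr_comap_x x y]
      exact Ideal.comap_mono hQI
    refine ⟨Q.comap (chg K x), Ideal.IsPrime.comap _, lt_of_le_of_ne hle hne, fun G hG hord => ?_⟩
    have h0 : OrdGE (ptI x y) e G := by
      have h1 := ord_cmp hP hV hG hord
      have h2 : 2 * e - 1 + 1 - e = e := by omega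
      rwa [h2] at h1
    have h1 : OrdGE (ptI (AlgHom.id k κ) y) e (chg K x G) := by
      rw [← ordGE_comap, tr_comap_x]
      exact h0
    have h2 := span_ord y L hL (tr_chg x L hG) h1
    show chg K x G ∈ Q
    generalize chg K x G = w at h2
    induction h2 using Submodule.span_induction with
    | mem v hv =>
      obtain ⟨f', ⟨hf1, hf2⟩, rfl⟩ := hv
      exact hQ.1.2 (Ideal.mem_map_of_mem _ (hV f' hf1 hf2))
    | zero => exact Ideal.zero_mem _
    | add a b _ _ ha hb => exact Ideal.add_mem _ ha hb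
    | smul c v _ hv =>
      rw [tr_smul]
      exact Ideal.mul_mem_left _ _ hv

theorem finrank_span_L (L : Submodule k K) [FiniteDimensional k L] (x y : K →ₐ[k] κ)
    (hle : (ptI x y).map (chg K x) ≤ (ptI x y).map (chg K y)) (hPI : ptI x y ≤ dI k K) :
    Module.finrank (eqF x y) (Submodule.span (eqF x y) (L : Set K)) ≤
      Module.finrank K ((L.baseChange K).map (Ideal.Quotient.mkₐ K (ptI x y)).toLinearMap) := by
  classical
  obtain ⟨b, hb, hsp, hli⟩ := exists_linearIndependent (eqF x y) (L : Set K)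
  have hfin := bc_finite L
  have h1 : LinearIndependent K (fun i : b => Ideal.Quotient.mk (ptI x y) ((1 : K) ⊗ₜ[k] (i : K))) := by
    rw [linearIndependent_iff_finset_linearIndependent]
    intro s
    exact linIndep_quot x y hle hPI (fun i : s => ((i : b) : K)) (hli.comp _ Subtype.val_injective)
  have hmem : ∀ i : b, Ideal.Quotient.mk (ptI x y) ((1 : K) ⊗ₜ[k] (i : K)) ∈
      (L.baseChange K).map (Ideal.Quotient.mkₐ K (ptI x y)).toLinearMap := by
    intro i
    exact ⟨(1 : K) ⊗ₜ[k] (i : K), bc_tmul 1 (hb i.2), rfl⟩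
  let g : b → (L.baseChange K).map (Ideal.Quotient.mkₐ K (ptI x y)).toLinearMap := fun i => ⟨_, hmem i⟩
  have hg : LinearIndependent K g := LinearIndependent.of_comp
    ((L.baseChange K).map (Ideal.Quotient.mkₐ K (ptI x y)).toLinearMap).subtype h1
  have : Module.Finite K ((L.baseChange K).map (Ideal.Quotient.mkₐ K (ptI x y)).toLinearMap) :=
    Module.Finite.map _ _
  have : Finite b := hg.finite
  have : Fintype b := Fintype.ofFinite b
  have h2 := hg.fintype_card_le_finrank
  rw [← hsp]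
  have h3 := finrank_span_eq_card hli
  rw [Subtype.range_coe] at h3
  rw [h3]
  exact h2

end pts

/-- `Fld1`, algebraic form -/
theorem tr [CharZero k] [IsAlgClosed k] [Algebra.EssFiniteType k K] (htr : Algebra.trdeg k K = 3)
    (L : Submodule k K) (hL : FiniteDimensional k L) {e : ℕ} (he : 1 ≤ e)
    (hh : (2 * e + 2).choose 3 < Module.finrank k L) {V : Ideal (K ⊗[k] K)} (hVp : V.IsPrime)
    (hVI : V ≤ dI k K) (hne : V ≠ dI k K) (hV : ∀ G ∈ L.baseChange K, OrdGE (dI k K) e G → G ∈ V) :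
    Srf L (2 * e) ∨ ∃ F : IntermediateField k K, Algebra.trdeg F K = 1 ∧ Clo F ∧ GrwL F L ((e + 2).choose 3) := by
  obtain ⟨C⟩ := exists_coord (k := k) (K := K) htr
  have hdom := Pool.Agent.H41.TQ.dom_tensor C
  have hbot : (⊥ : Ideal (K ⊗[k] K)).IsPrime := Ideal.isPrime_bot
  have hlt : V < dI k K := lt_of_le_of_ne hVI hne
  -- a prime which contains all elements of large order is not zero
  have hnz : ∀ (W : Ideal (K ⊗[k] K)) (m : ℕ), 1 ≤ m → m ≤ 2 * e →
      (∀ G ∈ L.baseChange K, OrdGE (dI k K) m G → G ∈ W) → W ≠ ⊥ := by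
    rintro W m hm hm2 hW rfl
    have h1 := dim_le C L hm fun G hG hord => (Ideal.mem_bot.1 (hW G hG hord))
    have h2 : (m + 2).choose 3 ≤ (2 * e + 2).choose 3 := Nat.choose_le_choose 3 (by omega)
    omega
  have hV0 : V ≠ ⊥ := hnz V e he (by omega) hV
  -- the transcendence degree of V
  have hfin : ∀ P : Ideal (K ⊗[k] K), P.IsPrime → ∃ n : ℕ, n ≤ 3 ∧ Algebra.trdeg K ((K ⊗[k] K) ⧸ P) = n := by
    intro P hP
    have h := Pool.Agent.H41.TQ.trdeg_quot_le htr P hP
    have h3 : (3 : Cardinal) = ((3 : ℕ) : Cardinal) := by norm_num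
    rw [h3] at h
    obtain ⟨n, hn⟩ := Cardinal.lt_aleph0.1 (h.trans_lt (Cardinal.natCast_lt_aleph0))
    refine ⟨n, ?_, hn⟩
    rw [hn] at h
    exact_mod_cast h
  have hstep : ∀ P Q : Ideal (K ⊗[k] K), P.IsPrime → Q.IsPrime → P < Q →
      Algebra.trdeg K ((K ⊗[k] K) ⧸ Q) < Algebra.trdeg K ((K ⊗[k] K) ⧸ P) := fun P Q hP hQ h =>
    trdeg_quot_lt hP hQ h (trdeg_quot_fin hP)
  obtain ⟨a, ha3, ha⟩ := hfin ⊥ hbot
  obtain ⟨b, hb3, hb⟩ := hfin V hVp
  have h1 := hstep V (dI k K) hVp inferInstance hlt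
  have h2 := hstep ⊥ V hbot hVp (bot_lt_iff_ne_bot.2 hV0)
  rw [trdeg_dI, hb] at h1
  rw [ha, hb] at h2
  have h1' : 0 < b := by exact_mod_cast h1
  have h2' : b < a := by exact_mod_cast h2
  rcases (show b = 1 ∨ b = 2 by omega) with hb1 | hb2
  swap
  · left
    refine ⟨V, hVp, ?_, fun G hG hord => hV G hG (OrdGE_mono (by omega) hord)⟩
    rw [hb, hb2]
    norm_num
  have htrV : Algebra.trdeg K ((K ⊗[k] K) ⧸ V) = 1 := by
    rw [hb, hb1]
    norm_num
  -- the two maps
  let x : K →ₐ[k] V.ResidueField :=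
    (IsScalarTower.toAlgHom k (K ⊗[k] K) V.ResidueField).comp
      (Algebra.TensorProduct.includeLeft : K →ₐ[k] K ⊗[k] K)
  let y : K →ₐ[k] V.ResidueField :=
    (IsScalarTower.toAlgHom k (K ⊗[k] K) V.ResidueField).comp
      (Algebra.TensorProduct.includeRight : K →ₐ[k] K ⊗[k] K)
  have hxy : ∀ q : K ⊗[k] K, pt x y q = algebraMap (K ⊗[k] K) V.ResidueField q := by
    intro q
    induction q using TensorProduct.induction_on with
    | zero => simp
    | add a b ha hb => rw [map_add, map_add, ha, hb]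
    | tmul a b =>
      rw [pt_tmul]
      show algebraMap (K ⊗[k] K) V.ResidueField (a ⊗ₜ[k] 1) *
        algebraMap (K ⊗[k] K) V.ResidueField (1 ⊗ₜ[k] b) = _
      rw [← map_mul, Algebra.TensorProduct.tmul_mul_tmul, mul_one, one_mul]
  have hPxy : ptI x y = V := by
    ext q
    rw [mem_ptI, hxy, Ideal.algebraMap_residueField_eq_zero]
  have hPI' : ptI x y ≤ dI k K := by rw [hPxy]; exact hVI
  rcases tr_or L hL he x y hPI' (by rw [hPxy]; exact hV) with hle | ⟨W, hW, hWV, hWL⟩
  · right
    have htrF : Algebra.trdeg (eqF x y) K = 1 := trdeg_eqF x y hle hPI' (by rw [hPxy]; exact htrV)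
    have h3 := finrank_span_L L x y hle hPI'
    have h4 := dim_im C L V he hV
    rw [hPxy] at h3
    have hLF : FiniteDimensional (eqF x y) (Submodule.span (eqF x y) (L : Set K)) := by
      obtain ⟨s, hs⟩ := (Module.Finite.iff_fg.1 hL : L.FG)
      have h5 : Submodule.span (eqF x y) (L : Set K) = Submodule.span (eqF x y) (s : Set K) := by
        rw [← hs]
        exact Submodule.span_span_of_tower k (eqF x y) (s : Set K)
      rw [h5]
      exact FiniteDimensional.span_of_finite _ s.finite_toSet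
    refine ⟨Pool.Agent.H83.TQ.clo (eqF x y), ?_, ?_, ?_⟩
    · rw [Pool.Agent.H83.TQ.clo_trdeg, htrF]
    · exact fun z hz => Pool.Agent.H83.TQ.clo_closed z hz
    · exact (Pool.Agent.H83.TQ.finrank_mono_field (Pool.Agent.H83.TQ.le_clo _) _ hLF).trans (h3.trans h4)
  · left
    rw [hPxy] at hWV
    have hW0 : W ≠ ⊥ := hnz W (2 * e - 1) (by omega) (by omega) hWL
    obtain ⟨h5, -⟩ := Pool.Agent.H41.TQ.trdeg_two htr C hW hVp hWV hlt hW0
    exact ⟨W, hW, h5, fun G hG hord => hWL G hG (OrdGE_mono (by omega) hord)⟩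

end alg

variable {k K : Type} [Field k] [Field K] [Algebra k K] {X : Mod k K}

/-- **(G1) and (TR)** -/
theorem fld1 [IsAlgClosed k] [CharZero k] (h : Hyp X) : Fld1 X := by
  intro E e he hh hv
  have hess : Algebra.EssFiniteType k K := by
    have h1 := K_fg h.var h.gen
    have h2 := IntermediateField.essFiniteType_iff.2 h1
    exact Algebra.EssFiniteType.of_surjective
      (IntermediateField.topEquiv (F := k) (E := K)).toAlgHom
      (IntermediateField.topEquiv (F := k) (E := K)).surjective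
  have hGF := gf h.var h.gen h.tr
  obtain ⟨V, h1, h2, h3, h4⟩ := g1 h E he (Nat.zero_lt_of_lt hh) hv
  exact tr h.tr (secL E 1) (hGF.1 E 1) he hh h1 h2 h3 h4

end Pool.Agent.H24.ZL
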